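import Pool.Agent.Helper49C.Psi2
import Pool.Agent.Helper49B.Center

/-!
# Central elements act by scalars, over number fields
-/

set_option autoImplicit false
set_option linter.unusedSectionVars false

namespace Pool.Agent.Helper49C

open NumberField IsDedekindDomain Module Polynomial TensorProduct Pool.Agent.Y114.RM
  Pool.Agent.Y114.GF Pool.Agent.Y114.TF Pool.Agent.Y114.MU
  Pool.Agent.W569.FM Pool.Agent.W571.FM Pool.Agent.H204R3.GP Pool.Agent.R931.IR
  Pool.Agent.TH118.SG Pool.Agent.N203.RE Pool.Agent.Helper49A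
open Pool.Agent.Helper49B (ext0_zpow exists_projector det_map eigen_relation
  part_single emb emb_injective emb_comm isOp_inj)

section eig

variable {F : Type} [Field F] [NumberField F] {ℓ : ℕ} [hℓ : Fact ℓ.Prime] {n : ℕ}

/-- The eigenvalues of an operator attached to a Frobenius element, if the operator commutes with the
Galois group, are determined by the weight. -/
theorem one_eigen (h : Inputs) (r : Representation ℚ_[ℓ] (GF F) (Fin n → ℚ_[ℓ]))
    (hr : Continuous fun g => LinearMap.toMatrix' (r g)) (j : PadicAlgCl ℓ →+* ℂ)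
    (S : Set (HeightOneSpectrum (𝓞 F))) (hS : S.Finite) {ι : Type}
    (P : HeightOneSpectrum (𝓞 F) → ι → ℚ[X]) (i : ι) {w : ℤ}
    (hw : ∀ v ∉ S, ∀ a ∈ (P v i).aroots ℂ, ¬ Above v ℓ → ‖a‖ ^ 2 = (q v : ℝ) ^ w)
    (hin : ∀ v ∉ S, ¬ Above v ℓ → ∀ Q : Ideal (OO F), Q.IsPrime → cm Q = v.asIdeal → ∀ g,
      InInertia Q g → r g = 1)
    (hP : ∀ v ∉ S, ¬ Above v ℓ → ∀ Q : Ideal (OO F), Q.IsPrime → cm Q = v.asIdeal → ∀ g,
      FrobAt (Ideal.absNorm v.asIdeal) Q g →
        (r g⁻¹).charpoly = (P v i).map (algebraMap ℚ ℚ_[ℓ]))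
    {p : ℕ} (hp : p ∈ goodPrimes S ℓ) (hind : PlacesIndependent P p)
    (A : Matrix (Fin n) (Fin n) ℚ_[ℓ])
    (hA : ∀ g, A * LinearMap.toMatrix' (r g) = LinearMap.toMatrix' (r g) * A)
    (v : HeightOneSpectrum (𝓞 F)) (hv : Above v p)
    (Q : Ideal (OO F)) (hQ : Q.IsPrime) (hQv : cm Q = v.asIdeal) (g : GF F)
    (hg : FrobAt (Ideal.absNorm v.asIdeal) Q g) {θ : Additive ℂˣ →+ ℂ}
    (hop : IsOp θ (Matrix.toLin' ((mt r g⁻¹).map j)) (Matrix.toLin'
      ((A.map (algebraMap ℚ_[ℓ] (PadicAlgCl ℓ))).map j)))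
    (μ : ℂ) (hμ : End.HasEigenvalue (Matrix.toLin'
      ((A.map (algebraMap ℚ_[ℓ] (PadicAlgCl ℓ))).map j)) μ) :
    2 * μ = w * ext0 θ (q v : ℂ) := by
  classical
  set A' : Matrix (Fin n) (Fin n) (PadicAlgCl ℓ) := A.map (algebraMap ℚ_[ℓ] (PadicAlgCl ℓ)) with hA'
  set T : End ℂ (Fin n → ℂ) := Matrix.toLin' (A'.map j) with hT
  set G : End ℂ (Fin n → ℂ) := Matrix.toLin' ((mt r g⁻¹).map j) with hG
  -- `G` is invertible
  have hinj : Function.Injective G := by
    have h1 : (Matrix.toLin' ((mt r g).map j) : End ℂ (Fin n → ℂ)) * G = 1 := by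
      rw [hG]
      show Matrix.toLin' ((mt r g).map j) ∘ₗ Matrix.toLin' ((mt r g⁻¹).map j) = _
      rw [← Matrix.toLin'_mul, ← Matrix.map_mul, ← mt_mul, mul_inv_cancel, mt_one]
      rw [← RingHom.mapMatrix_apply, map_one, Matrix.toLin'_one]
      rfl
    intro x y hxy
    have h2 := congrArg (Matrix.toLin' ((mt r g).map j)) hxy
    have h3 : ∀ z, Matrix.toLin' ((mt r g).map j) (G z) = z := fun z => LinearMap.congr_fun h1 z
    rwa [h3, h3] at h2
  -- `T` is diagonalizable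
  have hdiag : ⨆ ν, End.eigenspace T ν = ⊤ := tor_diag G T ⟨θ, hop⟩
  obtain ⟨B, hB, hBc, hBU, hUB⟩ := exists_projector j A' hdiag hμ
  have hAmt : ∀ g, A' * mt r g = mt r g * A' := by
    intro g
    rw [hA', mt, ← RingHom.mapMatrix_apply, ← RingHom.mapMatrix_apply, ← map_mul, hA, map_mul]
  have hc : ∀ g, B * mt r g = mt r g * B := fun g => hBc _ (hAmt g)
  set U : Submodule ℂ (Fin n → ℂ) := End.eigenspace T μ with hUdef
  have hU : ∀ g, ∀ x ∈ U, Matrix.toLin' ((mt r g).map j) x ∈ U := by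
    intro g x hx
    rw [hUdef, End.mem_eigenspace_iff] at hx ⊢
    have h1 : T (Matrix.toLin' ((mt r g).map j) x) = Matrix.toLin' ((mt r g).map j) (T x) := by
      rw [hT, ← LinearMap.comp_apply, ← LinearMap.comp_apply, ← Matrix.toLin'_mul,
        ← Matrix.toLin'_mul, ← Matrix.map_mul, ← Matrix.map_mul, hAmt]
    rw [h1, hx, map_smul]
  obtain ⟨m, hm, hD⟩ := place_torsion r hr hB hc j hBU hUB hU S hS P i hw hin hP hp hind v hv Q hQ
    hQv g hg
  set D : ℂ := j (psi0 r hB hc g⁻¹) with hDdef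
  have hq0 : (q v : ℂ) ≠ 0 := Nat.cast_ne_zero.2 (by
    rw [q, Ne, Ideal.absNorm_eq_zero_iff]
    exact v.ne_bot)
  -- the relation
  have hrel := eigen_relation h hinj hop μ (hU g⁻¹)
  have hdet : LinearMap.det (G.restrict (hU g⁻¹)) = D := by
    rw [hDdef, psi0_apply, det_map j _ _ U (hU g⁻¹) hBU hUB]
  rw [hdet] at hrel
  have h1 := ext0_pow θ D (Nat.mul_pos two_pos hm)
  rw [hD, ext0_zpow θ hq0] at h1
  have hfr : (finrank ℂ U : ℂ) ≠ 0 := by
    intro h0
    have h2 : finrank ℂ U = 0 := by exact_mod_cast h0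
    exact hμ (Submodule.finrank_eq_zero.1 h2)
  have hm0 : (m : ℂ) ≠ 0 := Nat.cast_ne_zero.2 hm.ne'
  have h4 : (2 * μ - w * ext0 θ (q v : ℂ)) * ((finrank ℂ U : ℂ) * (m : ℂ)) = 0 := by
    push_cast at h1
    rw [← hrel] at h1
    linear_combination -h1
  exact sub_eq_zero.1 ((mul_eq_zero.1 h4).resolve_right (mul_ne_zero hfr hm0))

end eig

section center

variable {F : Type} [Field F] [NumberField F]
  {ι : Type} [Fintype ι] [DecidableEq ι] {n : ι → ℕ} {ℓ : ℕ} [hℓ : Fact ℓ.Prime]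

/-- An operator which commutes with the Galois group and is attached to a Frobenius element acts by a
scalar on each summand. -/
theorem center_scalar (h : Inputs)
    (ρ : ∀ i, Representation ℚ_[ℓ] Gal(AlgebraicClosure F/F) (Fin (n i) → ℚ_[ℓ]))
    (hρ : ∀ i, Continuous fun g => LinearMap.toMatrix' (ρ i g)) (w : ι → ℤ)
    (S : Set (HeightOneSpectrum (𝓞 F))) (hS : S.Finite)
    (P : HeightOneSpectrum (𝓞 F) → ι → ℚ[X])
    (hP : ∀ v ∉ S, ¬ Above v ℓ → ∀ i, GoodReduction ρ i (w i) v (P v i))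
    (alg : Algebra ℚ_[ℓ] ℂ) (j : PadicAlgCl ℓ →+* ℂ)
    (hj : ∀ x, algebraMap ℚ_[ℓ] ℂ x = j (algebraMap ℚ_[ℓ] (PadicAlgCl ℓ) x))
    {p : ℕ} (hp : p ∈ goodPrimes S ℓ) (hind : PlacesIndependent P p)
    (X : End ℚ_[ℓ] (∀ i, Fin (n i) → ℚ_[ℓ])) (hparts : ∀ x i, X x i = X (Pi.single i (x i)) i)
    (hX : ∀ γ, X * sumRep ρ γ = sumRep ρ γ * X) (v : HeightOneSpectrum (𝓞 F)) (hv : Above v p)
    (Q : Ideal (OO F)) (hQ : Q.IsPrime) (hQv : cm Q = v.asIdeal)
    (φ : GF F) (hφ : FrobAt (Ideal.absNorm v.asIdeal) Q φ)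
    (htor : X.baseChange ℂ ∈ tor ((sumRep ρ φ⁻¹).baseChange ℂ)) :
    ∃ c : ι → ℚ_[ℓ], ∀ x i, X x i = c i • x i := by
  classical
  obtain ⟨θ, hθ⟩ := htor
  have key : ∀ i, ∃ c : ℚ_[ℓ], ∀ x : Fin (n i) → ℚ_[ℓ], X (Pi.single i x) i = c • x := by
    intro i
    let Xi : End ℚ_[ℓ] (Fin (n i) → ℚ_[ℓ]) :=
      LinearMap.proj i ∘ₗ X ∘ₗ LinearMap.single ℚ_[ℓ] (fun i => Fin (n i) → ℚ_[ℓ]) i
    have hXi : ∀ x, Xi x = X (Pi.single i x) i := fun x => rfl
    have hXi' : ∀ x, X (Pi.single i x) = Pi.single i (Xi x) := fun x => part_single hparts i x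
    have hcomm : ∀ γ, Xi * ρ i γ = ρ i γ * Xi := by
      intro γ
      refine LinearMap.ext fun x => ?_
      have h1 := LinearMap.congr_fun (hX γ) (Pi.single i x)
      rw [End.mul_apply, End.mul_apply, sumRep_single, hXi', hXi', sumRep_single] at h1
      exact Pi.single_injective (M := fun i => Fin (n i) → ℚ_[ℓ]) i h1
    set A : Matrix (Fin (n i)) (Fin (n i)) ℚ_[ℓ] := LinearMap.toMatrix' Xi with hA
    have hAc : ∀ g, A * LinearMap.toMatrix' (ρ i g) = LinearMap.toMatrix' (ρ i g) * A := by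
      intro g
      rw [hA, ← LinearMap.toMatrix'_mul, ← LinearMap.toMatrix'_mul, hcomm]
    have hmapj : ∀ M : Matrix (Fin (n i)) (Fin (n i)) ℚ_[ℓ],
        (M.map (algebraMap ℚ_[ℓ] (PadicAlgCl ℓ))).map j = M.map (algebraMap ℚ_[ℓ] ℂ) := by
      intro M
      rw [Matrix.map_map]
      congr 1
      funext x
      exact (hj x).symm
    have hop : IsOp θ (Matrix.toLin' ((mt (ρ i) φ⁻¹).map j)) (Matrix.toLin'
        ((A.map (algebraMap ℚ_[ℓ] (PadicAlgCl ℓ))).map j)) := by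
      have hmt : (mt (ρ i) φ⁻¹).map j =
          (LinearMap.toMatrix' (ρ i φ⁻¹)).map (algebraMap ℚ_[ℓ] ℂ) := hmapj _
      rw [hmt, hmapj]
      exact isOp_inj (emb ℚ_[ℓ] i) (emb_injective i)
        (fun x => emb_comm i (sumRep ρ φ⁻¹) (ρ i φ⁻¹) (sumRep_single ρ φ⁻¹ i) x)
        (fun x => emb_comm i X Xi hXi' x) hθ
    have hev := fun μ hμ => one_eigen h (ρ i) (hρ i) j S hS P i (w := w i)
      (fun v hv a ha hvℓ => (hP v hv hvℓ i).1 a ha)
      (fun v hv hvℓ Q hQ hQv g hg => by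
        have h1 : ρ i g = ρ i 1 := ((hP v hv hvℓ i).2 Q ⟨hQ, hQv⟩ g).1 hg
        rw [h1, map_one])
      (fun v hv hvℓ Q hQ hQv g hg => ((hP v hv hvℓ i).2 Q ⟨hQ, hQv⟩ g).2 hg) hp hind A hAc v hv
      Q hQ hQv φ hφ hop μ hμ
    have hdiag := tor_diag _ (Matrix.toLin' ((A.map (algebraMap ℚ_[ℓ] (PadicAlgCl ℓ))).map j))
      ⟨θ, hop⟩
    rw [hmapj] at hev hdiag
    set T : End ℂ (Fin (n i) → ℂ) := Matrix.toLin' (A.map (algebraMap ℚ_[ℓ] ℂ)) with hT
    set μ₀ : ℂ := (w i : ℂ) * ext0 θ (q v : ℂ) / 2 with hμ₀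
    have hTs : ∀ x, T x = μ₀ • x := by
      intro x
      have hx : x ∈ ⨆ μ, End.eigenspace T μ := by rw [hdiag]; trivial
      refine Submodule.iSup_induction (fun μ => End.eigenspace T μ)
        (motive := fun x => T x = μ₀ • x) hx ?_ ?_ ?_
      · intro μ x hx
        by_cases hx0 : x = 0
        · rw [hx0, map_zero, smul_zero]
        have h1 := hev μ (End.hasEigenvalue_of_hasEigenvector ⟨hx, hx0⟩)
        have h2 : μ = μ₀ := by
          rw [hμ₀, ← h1]
          ring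
        rw [End.mem_eigenspace_iff.1 hx, h2]
      · rw [map_zero, smul_zero]
      · intro x y hx hy
        rw [map_add, hx, hy, smul_add]
    have hentry : ∀ a b, algebraMap ℚ_[ℓ] ℂ (A a b) = if a = b then μ₀ else 0 := by
      intro a b
      have h1 := congrFun (hTs (Pi.single b 1)) a
      rw [hT, Matrix.toLin'_apply, Matrix.mulVec_single_one, Matrix.col_apply, Matrix.map_apply,
        Pi.smul_apply, Pi.single_apply, smul_eq_mul] at h1
      rw [h1]
      split_ifs <;> simp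
    by_cases hni : n i = 0
    · refine ⟨0, fun x => ?_⟩
      have : IsEmpty (Fin (n i)) := by rw [hni]; infer_instance
      exact Subsingleton.elim _ _
    · let a₀ : Fin (n i) := ⟨0, Nat.pos_of_ne_zero hni⟩
      refine ⟨A a₀ a₀, fun x => ?_⟩
      have hAs : A = (A a₀ a₀) • (1 : Matrix (Fin (n i)) (Fin (n i)) ℚ_[ℓ]) := by
        ext a b
        apply (algebraMap ℚ_[ℓ] ℂ).injective
        rw [hentry, Matrix.smul_apply, smul_eq_mul, map_mul, hentry, if_pos rfl, Matrix.one_apply]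
        split_ifs
        · rw [map_one, mul_one]
        · rw [map_zero, mul_zero]
      rw [← hXi]
      have h1 : Xi = Matrix.toLin' A := by rw [hA, Matrix.toLin'_toMatrix']
      rw [h1, hAs, map_smul, Matrix.toLin'_one]
      simp [a₀]
  choose c hc using key
  exact ⟨c, fun x i => by rw [hparts, hc]⟩

end center

end Pool.Agent.Helper49C
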