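import Pool.Agent.Helper49C.Fixed
import Pool.Agent.Helper49C.Eig
import Pool.Agent.Helper49B.Main

/-!
# Connected monodromy at one prime number: the theorem
-/

set_option autoImplicit false
set_option linter.unusedSectionVars false

namespace Pool.Agent.Helper49C

open NumberField IsDedekindDomain Module Polynomial TensorProduct Pool.Agent.Y114.RM
  Pool.Agent.Y114.TF Pool.Agent.Y114.GF Pool.Agent.Y114.MU Pool.Agent.H204R3.GP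
  Pool.Agent.R931.IR Pool.Agent.R931.BD Pool.Agent.W571.FM Pool.Agent.W569.FM
  Pool.Agent.N203.RE Pool.Agent.Helper49A
open Pool.Agent.Helper49B (central_bcS CenterTheorem CentralScalars TypeA exists_generator full_typeA
  onto_scal)

section main

variable {K : Type} [Field K] [NumberField K] {ι : Type} [Fintype ι] [DecidableEq ι] {n : ι → ℕ}
  {w : ι → ℤ} {ℓ ℓ₀ : ℕ} [hℓ : Fact ℓ.Prime] [hℓ₀ : Fact ℓ₀.Prime]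

/-- The elements of the commutant of `L` are endomorphisms over a finite extension. -/
theorem comm_tateEnd {Γ : Type} [Group Γ] [TopologicalSpace Γ] [IsTopologicalGroup Γ]
    [CompactSpace Γ] (ρ : Reps Γ n ℓ) (hρ : Conts ρ) (hss : FiniteIndexSemisimple (sumRep ρ))
    {L : Submodule ℚ_[ℓ] (End ℚ_[ℓ] (∀ i, Fin (n i) → ℚ_[ℓ]))}
    (hLT : ∀ X, X ∈ L ↔ ∀ (m : ℕ) (φ : Tensor ℚ_[ℓ] (∀ i, Fin (n i) → ℚ_[ℓ]) m),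
      TateTensor (sumRep ρ) φ → KillsTensor X φ)
    {Y : End ℚ_[ℓ] (∀ i, Fin (n i) → ℚ_[ℓ])} (hY : ∀ X ∈ L, X * Y = Y * X) :
    Y ∈ tateEnd (sumRep ρ) := by
  classical
  have h := inputs
  have h2 := inputs2
  obtain ⟨j⟩ := exists_emb ℓ
  let alg : Algebra ℚ_[ℓ] ℂ := (j.comp (algebraMap ℚ_[ℓ] (PadicAlgCl ℓ))).toAlgebra
  have hL : ∀ X, X ∈ L ↔ X ∈ LT (sumRep ρ) := fun X =>
    ⟨fun hX => mem_LT_of_semisimple (sumRep ρ) hss ((hLT X).1 hX), fun hX => (hLT X).2 hX.2⟩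
  obtain ⟨L', hL', -, hAd', -⟩ := h.lie ℚ_[ℓ] (∀ i, Fin (n i) → ℚ_[ℓ]) _ (sumRep ρ)
  have hLL' : L' = L := by
    ext X
    rw [hL', hL]
  rw [hLL'] at hAd'
  obtain ⟨Δ', hΔ', hcommΔ⟩ := h2.tfr ℓ ι n _ ρ hρ (comm L) (comm_conj (sumRep ρ) hAd')
    (comm_order (sumRep ρ) h h2 hL)
  exact ⟨Δ', hΔ', fun γ hγ => hcommΔ γ hγ Y hY⟩

/-- An element of the center which commutes with the Galois group acts by scalars. -/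
theorem center_main
    (ρ : ∀ i, Representation ℚ_[ℓ] Gal(AlgebraicClosure K/K) (Fin (n i) → ℚ_[ℓ]))
    (hρ : ∀ i, Continuous fun g => LinearMap.toMatrix' (ρ i g)) (w : ι → ℤ)
    (S : Set (HeightOneSpectrum (𝓞 K))) (hS : S.Finite)
    (P : HeightOneSpectrum (𝓞 K) → ι → ℚ[X])
    (hP : ∀ v ∉ S, ¬ Above v ℓ → ∀ i, GoodReduction ρ i (w i) v (P v i))
    (𝔤 : Submodule ℚ_[ℓ] (End ℚ_[ℓ] (∀ i, Fin (n i) → ℚ_[ℓ]))) (h𝔤 : IsMotivic ρ 𝔤) {r : ℕ}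
    (hrk : RankAtMost 𝔤 r) (hss : FiniteIndexSemisimple (sumRep ρ))
    {L : Submodule ℚ_[ℓ] (End ℚ_[ℓ] (∀ i, Fin (n i) → ℚ_[ℓ]))}
    (hLT : ∀ X, X ∈ L ↔ ∀ (m : ℕ) (φ : Tensor ℚ_[ℓ] (∀ i, Fin (n i) → ℚ_[ℓ]) m),
      TateTensor (sumRep ρ) φ → KillsTensor X φ) (hLG : L ≤ 𝔤)
    {p : ℕ} (hp : p ∈ goodPrimes S ℓ) (hind : PlacesIndependent P p)
    {v : HeightOneSpectrum (𝓞 K)} (hv : Above v p) (hrv : IndepRoots r (Set.range (P v)))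
    {X : End ℚ_[ℓ] (∀ i, Fin (n i) → ℚ_[ℓ])} (hX : X ∈ L) (hXc : ∀ Y ∈ L, Y * X = X * Y)
    (hXΓ : ∀ γ, X * sumRep ρ γ = sumRep ρ γ * X) :
    ∃ c : ι → ℚ_[ℓ], ∀ x i, X x i = c i • x i := by
  classical
  have h := inputs
  have h2 := inputs2
  obtain ⟨j⟩ := exists_emb ℓ
  let alg : Algebra ℚ_[ℓ] ℂ := (j.comp (algebraMap ℚ_[ℓ] (PadicAlgCl ℓ))).toAlgebra
  have hL : ∀ X, X ∈ L ↔ X ∈ LT (sumRep ρ) := fun X =>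
    ⟨fun hX => mem_LT_of_semisimple (sumRep ρ) hss ((hLT X).1 hX), fun hX => (hLT X).2 hX.2⟩
  obtain ⟨Q, φ, hQ, hQv, hφ⟩ := frob_cm v
  obtain ⟨z, hz, hzind⟩ := hrv
  have hvℓ : ¬ Above v ℓ := fun h4 => hp.2.1 (Pool.Agent.R931.GD.above_inj hp.1 hℓ.out hv h4)
  have hchar : ∀ i, (ρ i φ⁻¹).charpoly = (P v i).map (algebraMap ℚ ℚ_[ℓ]) := fun i =>
    ((hP v (hp.2.2.2 v hv) hvℓ i).2 Q ⟨hQ.isPrime, hQv⟩ φ).2 hφ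
  have hz' : ∀ j, End.HasEigenvalue ((sumRep ρ φ⁻¹).baseChange ℂ) (z j) := by
    intro j
    obtain ⟨_, ⟨i, rfl⟩, hi⟩ := hz j
    exact sumRep_eigen ρ φ⁻¹ (hchar i) hi
  have hcen := torus_cen (sumRep ρ) h h2.jord h2.cartan hL hLG h𝔤.bracket h𝔤.nondeg h𝔤.algebraic
    hrk φ⁻¹ z hz' hzind
  have htor : X.baseChange ℂ ∈ tor ((sumRep ρ φ⁻¹).baseChange ℂ) :=
    hcen _ (mem_bcS (hLG hX)) fun a ha => bcS_comm hXc a (tor_le (sumRep ρ) h hL φ⁻¹ ha)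
  exact center_scalar h ρ hρ w S hS P hP alg j (fun x => rfl) hp hind X
    (fun x i => h𝔤.parts X (hLG hX) x i) hXΓ v hv Q hQ.isPrime hQv φ hφ htor

/-- Type A. -/
theorem full_main
    (ρ : ∀ i, Representation ℚ_[ℓ] Gal(AlgebraicClosure K/K) (Fin (n i) → ℚ_[ℓ])) (w : ι → ℤ)
    (S : Set (HeightOneSpectrum (𝓞 K)))
    (P : HeightOneSpectrum (𝓞 K) → ι → ℚ[X])
    (hP : ∀ v ∉ S, ¬ Above v ℓ → ∀ i, GoodReduction ρ i (w i) v (P v i))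
    {𝔤 : Submodule ℚ (End ℚ (Betti n))} (h𝔤 : IsMotivic ρ (scal ℓ 𝔤)) {r : ℕ}
    (hrk : RankAtMost (scal ℓ 𝔤) r) (hss : FiniteIndexSemisimple (sumRep ρ))
    {L : Submodule ℚ_[ℓ] (End ℚ_[ℓ] (∀ i, Fin (n i) → ℚ_[ℓ]))}
    (hLT : ∀ X, X ∈ L ↔ ∀ (m : ℕ) (φ : Tensor ℚ_[ℓ] (∀ i, Fin (n i) → ℚ_[ℓ]) m),
      TateTensor (sumRep ρ) φ → KillsTensor X φ) (hLie : IsLie L) (hND : NonDeg L)
    (hLG : L ≤ scal ℓ 𝔤)
    (hcen : ∀ X ∈ L, (∀ Y ∈ L, Y * X = X * Y) → ∃ c : ι → ℚ_[ℓ], ∀ x i, X x i = c i • x i)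
    {p : ℕ} (hp : p ∈ goodPrimes S ℓ)
    {v : HeightOneSpectrum (𝓞 K)} (hv : Above v p) (hrv : IndepRoots r (Set.range (P v)))
    (hA : TypeA 𝔤) : L = scal ℓ 𝔤 := by
  classical
  have h := inputs
  have h2 := inputs2
  obtain ⟨j⟩ := exists_emb ℓ
  let alg : Algebra ℚ_[ℓ] ℂ := (j.comp (algebraMap ℚ_[ℓ] (PadicAlgCl ℓ))).toAlgebra
  have hL : ∀ X, X ∈ L ↔ X ∈ LT (sumRep ρ) := fun X =>
    ⟨fun hX => mem_LT_of_semisimple (sumRep ρ) hss ((hLT X).1 hX), fun hX => (hLT X).2 hX.2⟩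
  -- the place of maximal rank
  obtain ⟨z, hz, hzind⟩ := hrv
  obtain ⟨Q, φ, hQ, hQv, hφ⟩ := frob_cm v
  have hvℓ : ¬ Above v ℓ := fun h4 => hp.2.1 (Pool.Agent.R931.GD.above_inj hp.1 hℓ.out hv h4)
  have hchar : ∀ i, (ρ i φ⁻¹).charpoly = (P v i).map (algebraMap ℚ ℚ_[ℓ]) := fun i =>
    ((hP v (hp.2.2.2 v hv) hvℓ i).2 Q ⟨hQ.isPrime, hQv⟩ φ).2 hφ
  have hz' : ∀ j, End.HasEigenvalue ((sumRep ρ φ⁻¹).baseChange ℂ) (z j) := by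
    intro j
    obtain ⟨_, ⟨i, rfl⟩, hi⟩ := hz j
    exact sumRep_eigen ρ φ⁻¹ (hchar i) hi
  set gC : End ℂ (ℂ ⊗[ℚ_[ℓ]] (∀ i, Fin (n i) → ℚ_[ℓ])) := (sumRep ρ φ⁻¹).baseChange ℂ with hgC
  set g'C : End ℂ (ℂ ⊗[ℚ_[ℓ]] (∀ i, Fin (n i) → ℚ_[ℓ])) :=
    (sumRep ρ (φ⁻¹)⁻¹).baseChange ℂ with hg'C
  have hgg' : gC * g'C = 1 := by rw [hgC, hg'C, ← bc_mul, Pool.Agent.Y114.RM.rho_mul_inv, bc_one]
  have hg'g : g'C * gC = 1 := by rw [hgC, hg'C, ← bc_mul, Pool.Agent.Y114.RM.rho_inv_mul, bc_one]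
  have htorus := torus_cen (sumRep ρ) h h2.jord h2.cartan hL hLG h𝔤.bracket h𝔤.nondeg h𝔤.algebraic
      hrk φ⁻¹ z hz' hzind
  obtain ⟨d, hd, hgen⟩ := exists_generator gC g'C hg'g
  obtain ⟨J, N, f, hf1, hf2, hf3⟩ := hA
  have hfull : bcS ℂ L = bcS ℂ (scal ℓ 𝔤) := by
    refine full_typeA ((h.bc ℚ_[ℓ] ℂ _ (scal ℓ 𝔤)).2.1 h𝔤.bracket)
      ((h.bc ℚ_[ℓ] ℂ _ L).2.1 hLie) (bcS_mono hLG) ((h.bc ℚ_[ℓ] ℂ _ L).2.2.1 hND)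
      (onto_scal ℓ (𝔤 := 𝔤) (N := N) (f := f) ⟨hf1, hf2, hf3⟩) (t := tor gC)
      (tor_le (sumRep ρ) h hL φ⁻¹) ?_ hd ?_ ?_
    · rintro a ⟨θ, ha⟩
      exact tor_diag (AdE gC g'C) (adE a) ⟨θ, h.ad ℂ _ θ gC g'C a hgg' hg'g ha⟩
    · intro x hx hdx
      exact htorus x hx fun a ha => hgen x hdx a ha
    · intro z hz hzc
      refine central_bcS h (fun X hX hXc Y hY => ?_) hz hzc
      obtain ⟨c, hc⟩ := hcen X hX hXc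
      refine LinearMap.ext fun x => funext fun i => ?_
      rw [End.mul_apply, End.mul_apply, hc, h𝔤.parts Y hY (X x) i, h𝔤.parts Y hY x i, hc]
      have h1 : (Pi.single i (c i • x i) : ∀ i, Fin (n i) → ℚ_[ℓ]) =
          c i • Pi.single i (x i) := by
        rw [Pi.single_smul]
      rw [h1, map_smul]
      rfl
  exact (h.bc ℚ_[ℓ] ℂ _ (scal ℓ 𝔤)).2.2.2.2.1 L hLG hfull

/-- What is proved at every prime number, if the monodromy group is connected at one prime number. -/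
theorem main (P : HeightOneSpectrum (𝓞 K) → ι → ℚ[X]) (S : Set (HeightOneSpectrum (𝓞 K)))
    (ρ : ∀ (ℓ : ℕ) [Fact ℓ.Prime], Reps Gal(AlgebraicClosure K/K) n ℓ)
    {𝔤 : Submodule ℚ (End ℚ (Betti n))}
    (h : Realizations (MonoidHom.id Gal(AlgebraicClosure K/K)) w S P ρ 𝔤) (r : ℕ)
    (hr : RatRankLE 𝔤 r) {p₁ p₂ : ℕ} (h₁₂ : p₁ ≠ p₂) (h₁ : MaximalRankAt S P r p₁)
    (h₂ : MaximalRankAt S P r p₂) (ℓ₀ : ℕ) [Fact ℓ₀.Prime] (hconn : ZariskiConnected (ρ ℓ₀))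
    (ℓ : ℕ) [hℓ : Fact ℓ.Prime] :
    Semisimple (ρ ℓ) ∧ (TateMotivated (ρ ℓ) 𝔤 ↔ EndosOverBase (ρ ℓ) 𝔤) ∧
      CenterTheorem (ρ ℓ) 𝔤 r ∧ (TypeA 𝔤 → TateMotivated (ρ ℓ) 𝔤) := by
  obtain ⟨p, hpne, hp⟩ : ∃ p, p ≠ ℓ ∧ MaximalRankAt S P r p := by
    by_cases h1 : p₁ = ℓ
    · exact ⟨p₂, fun h2 => h₁₂ (h1.trans h2.symm), h₂⟩
    · exact ⟨p₁, h1, h₁⟩
  have hR : RankTheorem (ρ ℓ) 𝔤 r := main_place h r hr p hp ℓ hpne.symm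
  have hfix : ∀ Y ∈ tateEnd (sumRep (ρ ℓ)), ∀ γ, sumRep (ρ ℓ) γ * Y = Y * sumRep (ρ ℓ) γ :=
    fun Y hY γ => endos_fixed (ρ ℓ) (h.continuous ℓ) (ρ ℓ₀) (h.continuous ℓ₀) S h.finite P
      (h.good ℓ) (h.good ℓ₀) hconn hY γ
  have hpg : p ∈ goodPrimes S ℓ := ⟨hp.prime, hpne, hp.unramified, hp.good⟩
  obtain ⟨v, hv, hrv⟩ := hp.rank
  obtain ⟨𝔥, hk, hred⟩ := hR.rank
  have hcen : CentralScalars (k := ℚ_[ℓ]) (V := fun i => Fin (n i) → ℚ_[ℓ]) 𝔥 :=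
    fun X hX hXc => center_main (ρ ℓ) (h.continuous ℓ) w S h.finite P (h.good ℓ) (scal ℓ 𝔤)
      (h.motivic ℓ) (rank_scalars ℓ hr) hR.semisimple hk hred.le hpg hp.independent hv hrv hX hXc
      fun γ => (hfix X (comm_tateEnd (ρ ℓ) (h.continuous ℓ) hR.semisimple hk hXc) γ).symm
  refine ⟨hR.semisimple, ?_, ⟨𝔥, hk, hred, hcen⟩, fun hA => ?_⟩
  · rw [hR.tate]
    refine ⟨fun h1 Y hY => h1 Y ⟨⊤, inferInstance, fun γ _ => hY γ⟩, fun h1 Y hY => ?_⟩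
    exact h1 Y fun γ => hfix Y hY γ
  · have hfull := full_main (ρ ℓ) w S P (h.good ℓ) (𝔤 := 𝔤) (h.motivic ℓ)
      (rank_scalars ℓ hr) hR.semisimple hk hred.bracket hred.nondeg hred.le hcen hpg hv hrv hA
    intro m φ
    exact ⟨fun hφ X hX => (hk X).1 (hfull.symm.le hX) m φ hφ, IsMotivic.tate (h.motivic ℓ) m φ⟩

end main

end Pool.Agent.Helper49C
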