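import Pool.Agent.N203.RE.Defs

/-!
# Connected monodromy groups: definitions
-/

set_option autoImplicit false

namespace Pool.Agent.Helper49C

open Module Pool.Agent.Y114.RM Pool.Agent.Y114.TF Pool.Agent.N203.RE

variable {Γ : Type} [Group Γ] {ι : Type} {n : ι → ℕ} {ℓ : ℕ} [Fact ℓ.Prime] (ρ : Reps Γ n ℓ)

/-- The entries of the matrices of `γ` in the representations `ρ i`. -/
noncomputable def entries (γ : Γ) : (Σ i, Fin (n i) × Fin (n i)) → ℚ_[ℓ] :=
  fun x => LinearMap.toMatrix' (ρ x.1 γ) x.2.1 x.2.2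

/-- The algebraic monodromy group (the Zariski closure of the image of `Γ`) is connected: if a
polynomial in the entries of the matrices vanishes on a subgroup of finite index, it vanishes on
`Γ`. -/
def ZariskiConnected : Prop :=
  ∀ Δ : Subgroup Γ, Δ.FiniteIndex → ∀ f : MvPolynomial (Σ i, Fin (n i) × Fin (n i)) ℚ_[ℓ],
    (∀ γ ∈ Δ, MvPolynomial.eval (entries ρ γ) f = 0) → ∀ γ, MvPolynomial.eval (entries ρ γ) f = 0

/-- The endomorphisms of the representation `r` of `Γ` commute with `𝔥`. -/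
def EndosFixedBy {k V Γ : Type} [Field k] [AddCommGroup V] [Module k V] [Group Γ]
    (r : Representation k Γ V) (𝔥 : Submodule k (End k V)) : Prop :=
  ∀ Y : End k V, (∀ γ, r γ * Y = Y * r γ) → ∀ X ∈ 𝔥, X * Y = Y * X

/-- All endomorphisms of the representation of `Γ` are motivated: the endomorphisms which commute with
`Γ` commute with `𝔤 ⊗ ℚ_ℓ`. -/
def EndosOverBase (𝔤 : Submodule ℚ (End ℚ (Betti n))) : Prop :=
  EndosFixedBy (sumRep ρ) (scalars ℓ 𝔤)

end Pool.Agent.Helper49C
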