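import Pool.Agent.Helper49C.Kron
import Pool.Agent.Helper49C.Defs
import Pool.Agent.Helper49A.Trans
import Pool.Agent.Helper49A.Endo

/-!
# Endomorphisms over finite extensions, if the monodromy group is connected at one prime
-/

set_option autoImplicit false
set_option linter.unusedSectionVars false

namespace Pool.Agent.Helper49C

open NumberField IsDedekindDomain Module Polynomial Pool.Agent.Y114.RM
  Pool.Agent.Y114.TF Pool.Agent.Y114.GF Pool.Agent.Y114.MU Pool.Agent.H204R3.GP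
  Pool.Agent.R931.IR Pool.Agent.W571.FM Pool.Agent.Helper49A

section conj

variable {k : Type} [Field k] {Γ : Type} [Group Γ] {a b : ℕ}
  (r : Representation k Γ (Fin a → k)) (r' : Representation k Γ (Fin b → k))

/-- the matrix of a group element -/
noncomputable def mx (γ : Γ) : Matrix (Fin a) (Fin a) k := LinearMap.toMatrix' (r γ)

theorem mx_one : mx r 1 = 1 := by rw [mx, map_one, LinearMap.toMatrix'_one]

theorem mx_mul (γ δ : Γ) : mx r (γ * δ) = mx r γ * mx r δ := by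
  rw [mx, map_mul, LinearMap.toMatrix'_mul]
  rfl

theorem mx_inv_mul (γ : Γ) : mx r γ⁻¹ * mx r γ = 1 := by
  rw [← mx_mul, inv_mul_cancel, mx_one]

theorem mx_mul_inv (γ : Γ) : mx r γ * mx r γ⁻¹ = 1 := by
  rw [← mx_mul, mul_inv_cancel, mx_one]

theorem mx_pow (γ : Γ) (m : ℕ) : mx r (γ ^ m) = mx r γ ^ m := by
  induction m with
  | zero => rw [pow_zero, pow_zero, mx_one]
  | succ m ih => rw [pow_succ, pow_succ, mx_mul, ih]

/-- the conjugation -/
noncomputable def cj (γ : Γ) (Z : Matrix (Fin a) (Fin b) k) : Matrix (Fin a) (Fin b) k :=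
  mx r γ * Z * mx r' γ⁻¹

theorem cj_mul (γ δ : Γ) (Z : Matrix (Fin a) (Fin b) k) :
    cj r r' (γ * δ) Z = cj r r' γ (cj r r' δ Z) := by
  rw [cj, cj, cj, mx_mul, mul_inv_rev, mx_mul]
  simp only [Matrix.mul_assoc]

theorem cj_one (Z : Matrix (Fin a) (Fin b) k) : cj r r' 1 Z = Z := by
  rw [cj, inv_one, mx_one, mx_one, Matrix.one_mul, Matrix.mul_one]

theorem cj_sub (γ : Γ) (Z Z' : Matrix (Fin a) (Fin b) k) :
    cj r r' γ (Z - Z') = cj r r' γ Z - cj r r' γ Z' := by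
  rw [cj, cj, cj, Matrix.mul_sub, Matrix.sub_mul]

theorem cj_eq_iff (γ : Γ) (Z : Matrix (Fin a) (Fin b) k) :
    cj r r' γ Z = Z ↔ mx r γ * Z = Z * mx r' γ := by
  constructor
  · intro h
    nth_rewrite 2 [← h]
    rw [cj, Matrix.mul_assoc (mx r γ * Z), mx_inv_mul, Matrix.mul_one]
  · intro h
    rw [cj, h, Matrix.mul_assoc, mx_mul_inv, Matrix.mul_one]

/-- the subgroup of the elements which fix `Z` -/
noncomputable def fx (Z : Matrix (Fin a) (Fin b) k) : Subgroup Γ where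
  carrier := {γ | cj r r' γ Z = Z}
  mul_mem' := by
    intro γ δ hγ hδ
    show cj r r' (γ * δ) Z = Z
    rw [cj_mul, show cj r r' δ Z = Z from hδ, show cj r r' γ Z = Z from hγ]
  one_mem' := cj_one r r' Z
  inv_mem' := by
    intro γ hγ
    show cj r r' γ⁻¹ Z = Z
    have h1 : cj r r' γ Z = Z := hγ
    nth_rewrite 1 [← h1]
    rw [← cj_mul, inv_mul_cancel, cj_one]

theorem mem_fx {Z : Matrix (Fin a) (Fin b) k} {γ : Γ} : γ ∈ fx r r' Z ↔ cj r r' γ Z = Z := Iff.rfl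

/-- If `σ` does not fix `Z`, all elements of a coset of the form `σ N` satisfy a relation. -/
theorem exists_relation {N : Subgroup Γ} [hN : N.Normal] (hNf : N.FiniteIndex)
    {Z : Matrix (Fin a) (Fin b) k} (hZ : ∀ δ ∈ N, cj r r' δ Z = Z) {σ : Γ}
    (hσ : cj r r' σ Z ≠ Z) :
    ∃ (M : ℕ) (D : Matrix (Fin a) (Fin b) k), 0 < M ∧ D ≠ 0 ∧ ∀ δ ∈ N,
      ∑ m ∈ Finset.range M, mx r (σ * δ) ^ m * D * mx r' (σ * δ) ^ (M - 1 - m) = 0 := by
  obtain ⟨M, hM, -, hσM⟩ := Subgroup.exists_pow_mem_of_index_ne_zero hNf.index_ne_zero σ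
  refine ⟨M, cj r r' σ Z - Z, hM, sub_ne_zero.2 hσ, fun δ hδ => ?_⟩
  -- elements fixed by `N` are stable
  have hst : ∀ γ Z', (∀ δ ∈ N, cj r r' δ Z' = Z') → ∀ δ ∈ N, cj r r' δ (cj r r' γ Z') =
      cj r r' γ Z' := by
    intro γ Z' hZ' δ hδ
    have h1 : δ * γ = γ * (γ⁻¹ * δ * γ) := by group
    have h2 : γ⁻¹ * δ * γ ∈ N := by
      have := hN.conj_mem δ hδ γ⁻¹
      rwa [inv_inv] at this
    rw [← cj_mul, h1, cj_mul, hZ' _ h2]
  have hpow : ∀ (m : ℕ) Z', (∀ δ ∈ N, cj r r' δ Z' = Z') →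
      cj r r' ((σ * δ) ^ m) Z' = cj r r' (σ ^ m) Z' := by
    intro m
    induction m with
    | zero => intro Z' _; rw [pow_zero, pow_zero]
    | succ m ih =>
      intro Z' hZ'
      rw [pow_succ, pow_succ, cj_mul, cj_mul, cj_mul, hZ' δ hδ]
      exact ih _ (hst σ Z' hZ')
  have hD : ∀ δ ∈ N, cj r r' δ (cj r r' σ Z - Z) = cj r r' σ Z - Z := by
    intro δ hδ
    rw [cj_sub, hst σ Z hZ δ hδ, hZ δ hδ]
  have hsum : ∑ m ∈ Finset.range M, cj r r' ((σ * δ) ^ m) (cj r r' σ Z - Z) = 0 := by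
    have h1 : ∀ m ∈ Finset.range M, cj r r' ((σ * δ) ^ m) (cj r r' σ Z - Z) =
        cj r r' (σ ^ (m + 1)) Z - cj r r' (σ ^ m) Z := by
      intro m _
      rw [hpow m _ hD, cj_sub, ← cj_mul, ← pow_succ]
    rw [Finset.sum_congr rfl h1, Finset.sum_range_sub (fun m => cj r r' (σ ^ m) Z), hZ _ hσM,
      pow_zero, cj_one, sub_self]
  have h2 : (∑ m ∈ Finset.range M, cj r r' ((σ * δ) ^ m) (cj r r' σ Z - Z)) *
      mx r' ((σ * δ) ^ (M - 1)) = 0 := by rw [hsum, Matrix.zero_mul]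
  rw [Matrix.sum_mul] at h2
  rw [← h2]
  refine Finset.sum_congr rfl fun m hm => ?_
  have hm' : m < M := Finset.mem_range.1 hm
  generalize cj r r' σ Z - Z = D'
  have h3 : mx r' (((σ * δ) ^ m)⁻¹) * mx r' ((σ * δ) ^ (M - 1)) =
      mx r' (σ * δ) ^ (M - 1 - m) := by
    rw [← mx_mul, ← mx_pow]
    congr 1
    rw [inv_mul_eq_iff_eq_mul, ← pow_add]
    congr 1
    omega
  rw [cj, Matrix.mul_assoc _ (mx r' (((σ * δ) ^ m)⁻¹)), h3, mx_pow]

end conj

section field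

variable {ℓ : ℕ} [hℓ : Fact ℓ.Prime]

/-- From a relation between the matrices to a relation between the eigenvalues. -/
theorem eigen_of_relation (alg : ℚ_[ℓ] →+* ℂ) {a b M : ℕ} {G : Matrix (Fin a) (Fin a) ℚ_[ℓ]}
    {G' : Matrix (Fin b) (Fin b) ℚ_[ℓ]} {D : Matrix (Fin a) (Fin b) ℚ_[ℓ]} (hD : D ≠ 0)
    (h : ∑ m ∈ Finset.range M, G ^ m * D * G' ^ (M - 1 - m) = 0) {P P' : ℚ[X]}
    (hG : G.charpoly = P.map (algebraMap ℚ ℚ_[ℓ])) (hG' : G'.charpoly = P'.map (algebraMap ℚ ℚ_[ℓ])) :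
    ∃ z z' : ℂ, (P.map (algebraMap ℚ ℂ)).IsRoot z ∧ (P'.map (algebraMap ℚ ℂ)).IsRoot z' ∧
      ∑ m ∈ Finset.range M, z ^ m * z' ^ (M - 1 - m) = 0 := by
  have hpow : ∀ (c : ℕ) (H : Matrix (Fin c) (Fin c) ℚ_[ℓ]) (m : ℕ),
      (H ^ m).map alg = (H.map alg) ^ m := by
    intro c H m
    rw [← RingHom.mapMatrix_apply, map_pow]
    rfl
  obtain ⟨z, z', hz, hz', hrel⟩ := exists_eigen_of_ker M (G.map alg) (G'.map alg)
    (Z := D.map alg) (by
      intro h0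
      apply hD
      ext x y
      have h1 := congrFun (congrFun h0 x) y
      rw [Matrix.map_apply, Matrix.zero_apply] at h1
      rw [Matrix.zero_apply]
      exact alg.injective (h1.trans (map_zero alg).symm)) (by
      have h1 : (∑ m ∈ Finset.range M, G ^ m * D * G' ^ (M - 1 - m)).map alg = 0 := by
        rw [h, Matrix.map_zero _ (map_zero alg)]
      rw [← h1]
      ext x y
      rw [Matrix.map_apply, Matrix.sum_apply, Matrix.sum_apply, map_sum]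
      refine Finset.sum_congr rfl fun m _ => ?_
      rw [← hpow, ← hpow, ← Matrix.map_mul, ← Matrix.map_mul, Matrix.map_apply])
  have hmap : ∀ Q : ℚ[X], (Q.map (algebraMap ℚ ℚ_[ℓ])).map alg = Q.map (algebraMap ℚ ℂ) := by
    intro Q
    rw [Polynomial.map_map]
    congr 1
    exact Subsingleton.elim _ _
  refine ⟨z, z', ?_, ?_, hrel⟩
  · rw [Matrix.charpoly_map, hG, hmap] at hz
    exact hz
  · rw [Matrix.charpoly_map, hG', hmap] at hz'
    exact hz'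

/-- From a relation between the eigenvalues to the determinant. -/
theorem det_of_eigen (alg : ℚ_[ℓ] →+* ℂ) {a b M : ℕ} {G : Matrix (Fin a) (Fin a) ℚ_[ℓ]}
    {G' : Matrix (Fin b) (Fin b) ℚ_[ℓ]} {P P' : ℚ[X]}
    (hG : G.charpoly = P.map (algebraMap ℚ ℚ_[ℓ])) (hG' : G'.charpoly = P'.map (algebraMap ℚ ℚ_[ℓ]))
    {z z' : ℂ} (hz : (P.map (algebraMap ℚ ℂ)).IsRoot z) (hz' : (P'.map (algebraMap ℚ ℂ)).IsRoot z')
    (hrel : ∑ m ∈ Finset.range M, z ^ m * z' ^ (M - 1 - m) = 0) : (kr M G G').det = 0 := by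
  have hmap : ∀ Q : ℚ[X], (Q.map (algebraMap ℚ ℚ_[ℓ])).map alg = Q.map (algebraMap ℚ ℂ) := by
    intro Q
    rw [Polynomial.map_map]
    congr 1
    exact Subsingleton.elim _ _
  apply alg.injective
  rw [det_kr_map, map_zero]
  refine det_kr_of_eigen M _ _ (z := z) (z' := z') ?_ ?_ hrel
  · rw [Matrix.charpoly_map, hG, hmap]
    exact hz
  · rw [Matrix.charpoly_map, hG', hmap]
    exact hz'

end field

section poly

variable {Γ : Type} [Group Γ] {ι : Type} {n : ι → ℕ} {ℓ : ℕ} [Fact ℓ.Prime]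

/-- The matrix of the variables. -/
noncomputable def vr (n : ι → ℕ) (k : Type) [CommRing k] (i : ι) :
    Matrix (Fin (n i)) (Fin (n i)) (MvPolynomial (Σ i, Fin (n i) × Fin (n i)) k) :=
  Matrix.of fun a b => MvPolynomial.X ⟨i, (a, b)⟩

/-- A polynomial whose value is the determinant for `σ γ`. -/
theorem exists_poly (ρ : ∀ i, Representation ℚ_[ℓ] Γ (Fin (n i) → ℚ_[ℓ])) (M : ℕ) (i i' : ι)
    (σ : Γ) : ∃ f : MvPolynomial (Σ i, Fin (n i) × Fin (n i)) ℚ_[ℓ], ∀ γ,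
      MvPolynomial.eval (entries ρ γ) f =
        (kr M (mx (ρ i) (σ * γ)) (mx (ρ i') (σ * γ))).det := by
  refine ⟨(kr M ((mx (ρ i) σ).map MvPolynomial.C * vr n ℚ_[ℓ] i)
    ((mx (ρ i') σ).map MvPolynomial.C * vr n ℚ_[ℓ] i')).det, fun γ => ?_⟩
  rw [det_kr_map]
  have h1 : ∀ i, ((mx (ρ i) σ).map MvPolynomial.C * vr n ℚ_[ℓ] i).map
      (MvPolynomial.eval (entries ρ γ)) = mx (ρ i) (σ * γ) := by
    intro i
    rw [mx_mul, ← RingHom.mapMatrix_apply, map_mul]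
    congr 1
    · ext a b
      rw [RingHom.mapMatrix_apply, Matrix.map_apply, Matrix.map_apply, MvPolynomial.eval_C]
    · ext a b
      rw [RingHom.mapMatrix_apply, Matrix.map_apply, vr, Matrix.of_apply, MvPolynomial.eval_X]
      rfl
  rw [h1, h1]

end poly

section main

variable {K : Type} [Field K] [NumberField K] {ι : Type} [Fintype ι] {n : ι → ℕ}
  {w : ι → ℤ} {ℓ ℓ₀ : ℕ} [hℓ : Fact ℓ.Prime] [hℓ₀ : Fact ℓ₀.Prime]

theorem exists_ringHom (ℓ : ℕ) [Fact ℓ.Prime] : Nonempty (ℚ_[ℓ] →+* ℂ) := by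
  obtain ⟨j⟩ := exists_emb ℓ
  exact ⟨j.comp (algebraMap ℚ_[ℓ] (PadicAlgCl ℓ))⟩

theorem continuous_mx {Γ : Type} [Group Γ] [TopologicalSpace Γ] {a : ℕ}
    {r : Representation ℚ_[ℓ] Γ (Fin a → ℚ_[ℓ])}
    (hr : Continuous fun g => LinearMap.toMatrix' (r g)) : Continuous fun g => mx r g := hr

theorem continuous_det_kr {Γ : Type} [Group Γ] [TopologicalSpace Γ] {a b : ℕ} (M : ℕ)
    {r : Representation ℚ_[ℓ] Γ (Fin a → ℚ_[ℓ])}
    (hr : Continuous fun g => LinearMap.toMatrix' (r g))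
    {r' : Representation ℚ_[ℓ] Γ (Fin b → ℚ_[ℓ])}
    (hr' : Continuous fun g => LinearMap.toMatrix' (r' g)) :
    Continuous fun g => (kr M (mx r g) (mx r' g)).det := by
  refine Continuous.matrix_det ?_
  refine continuous_matrix fun x y => ?_
  have h1 : (fun g => kr M (mx r g) (mx r' g) x y) = fun g => ∑ m ∈ Finset.range M,
      (((mx r' g).transpose) ^ (M - 1 - m)) x.1 y.1 * ((mx r g) ^ m) x.2 y.2 := by
    funext g
    rw [kr, Matrix.sum_apply]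
    rfl
  rw [h1]
  refine continuous_finsetSum _ fun m _ => ?_
  have h2 : Continuous fun g => ((mx r' g).transpose) ^ (M - 1 - m) :=
    (continuous_mx hr').matrix_transpose.pow _
  have h3 : Continuous fun g => (mx r g) ^ m := (continuous_mx hr).pow _
  exact (h2.matrix_elem _ _).mul (h3.matrix_elem _ _)

/-- If the monodromy group at `ℓ₀` is connected, the homomorphisms at `ℓ` which commute with a subgroup
of finite index commute with the Galois group. -/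
theorem block_commutes (ρ : Reps Gal(AlgebraicClosure K/K) n ℓ) (hρ : Conts ρ)
    (ρ₀ : Reps Gal(AlgebraicClosure K/K) n ℓ₀) (hρ₀ : Conts ρ₀)
    (S : Set (HeightOneSpectrum (𝓞 K))) (hS : S.Finite) (P : HeightOneSpectrum (𝓞 K) → ι → ℚ[X])
    (hP : ∀ v ∉ S, ¬ Above v ℓ → ∀ i, GoodReduction ρ i (w i) v (P v i))
    (hP₀ : ∀ v ∉ S, ¬ Above v ℓ₀ → ∀ i, GoodReduction ρ₀ i (w i) v (P v i))
    (hconn : ZariskiConnected ρ₀) (i i' : ι) (Z : Matrix (Fin (n i)) (Fin (n i')) ℚ_[ℓ])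
    (hZ : (fx (ρ i) (ρ i') Z).FiniteIndex) : fx (ρ i) (ρ i') Z = ⊤ := by
  classical
  by_contra hne
  obtain ⟨σ, hσ⟩ : ∃ σ, σ ∉ fx (ρ i) (ρ i') Z := by
    by_contra hcon
    push Not at hcon
    exact hne (Subgroup.ext fun x => ⟨fun _ => Subgroup.mem_top x, fun _ => hcon x⟩)
  have hcl : IsClosed (fx (ρ i) (ρ i') Z : Set Gal(AlgebraicClosure K/K)) := by
    have h1 : (fx (ρ i) (ρ i') Z : Set Gal(AlgebraicClosure K/K)) =
        {γ | mx (ρ i) γ * Z = Z * mx (ρ i') γ} := by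
      ext γ
      exact cj_eq_iff _ _ _ _
    rw [h1]
    exact isClosed_eq ((continuous_mx (hρ i)).matrix_mul continuous_const)
      (continuous_const.matrix_mul (continuous_mx (hρ i')))
  set N : Subgroup Gal(AlgebraicClosure K/K) := (fx (ρ i) (ρ i') Z).normalCore with hN
  have hNn : N.Normal := inferInstance
  have hNf : N.FiniteIndex := inferInstance
  have hNo : IsOpen (N : Set Gal(AlgebraicClosure K/K)) :=
    Subgroup.isOpen_of_isClosed_of_finiteIndex _ (Subgroup.normalCore_isClosed _ hcl)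
  obtain ⟨M, D, hM, hD, hrel⟩ := exists_relation (ρ i) (ρ i') hNf
    (fun δ hδ => Subgroup.normalCore_le _ hδ) (σ := σ) hσ
  obtain ⟨alg⟩ := exists_ringHom ℓ
  obtain ⟨alg₀⟩ := exists_ringHom ℓ₀
  have hchar : ∀ {ℓ : ℕ} [Fact ℓ.Prime] {a : ℕ} (A : End ℚ_[ℓ] (Fin a → ℚ_[ℓ])),
      (LinearMap.toMatrix' A).charpoly = A.charpoly := by
    intro ℓ _ a A
    rw [← LinearMap.toMatrix_eq_toMatrix', LinearMap.charpoly_toMatrix]
  -- the determinants at `ℓ₀` are zero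
  have hdet : ∀ δ ∈ N, (kr M (mx (ρ₀ i) (σ * δ)) (mx (ρ₀ i') (σ * δ))).det = 0 := by
    intro δ hδ
    by_contra hne
    let O : Set Gal(AlgebraicClosure K/K) := {g | σ⁻¹ * g ∈ N} ∩
      {g | (kr M (mx (ρ₀ i) g) (mx (ρ₀ i') g)).det ≠ 0}
    have hO : IsOpen O := (hNo.preimage (continuous_const_mul σ⁻¹)).inter
      (isOpen_ne_fun (continuous_det_kr M (hρ₀ i) (hρ₀ i')) continuous_const)
    obtain ⟨v, hv, φ, ⟨Q, hQ, hQv, hφ⟩, hφO⟩ := Pool.Agent.Y405.ZO.t K O hO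
      ⟨σ * δ, by
        show σ⁻¹ * (σ * δ) ∈ N
        rwa [inv_mul_cancel_left], hne⟩
      (S ∪ {v | Above v ℓ} ∪ {v | Above v ℓ₀})
      ((hS.union (finite_aboveK K ℓ hℓ.out)).union (finite_aboveK K ℓ₀ hℓ₀.out))
    have hvS : v ∉ S := fun h' => hv (Or.inl (Or.inl h'))
    have hvℓ : ¬ Above v ℓ := fun h' => hv (Or.inl (Or.inr h'))
    have hvℓ₀ : ¬ Above v ℓ₀ := fun h' => hv (Or.inr h')
    have hc : ∀ i, (mx (ρ i) φ⁻¹).charpoly = (P v i).map (algebraMap ℚ ℚ_[ℓ]) := fun i =>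
      (hchar _).trans (((hP v hvS hvℓ i).2 Q ⟨hQ.isPrime, hQv⟩ φ).2 hφ)
    have hc₀ : ∀ i, (mx (ρ₀ i) φ⁻¹).charpoly = (P v i).map (algebraMap ℚ ℚ_[ℓ₀]) := fun i =>
      (hchar _).trans (((hP₀ v hvS hvℓ₀ i).2 Q ⟨hQ.isPrime, hQv⟩ φ).2 hφ)
    have h1 := hrel (σ⁻¹ * φ⁻¹) hφO.1
    rw [mul_inv_cancel_left] at h1
    obtain ⟨z, z', hz, hz', h2⟩ := eigen_of_relation alg hD h1 (hc i) (hc i')
    exact hφO.2 (det_of_eigen alg₀ (hc₀ i) (hc₀ i') hz hz' h2)
  obtain ⟨f, hf⟩ := exists_poly ρ₀ M i i' σ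
  have h1 := hconn N hNf f (fun δ hδ => (hf δ).trans (hdet δ hδ)) σ⁻¹
  rw [hf, mul_inv_cancel, mx_one, mx_one] at h1
  exact det_kr_one hM h1

end main

end Pool.Agent.Helper49C
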