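import Pool.Agent.Helper49C.Conn

/-!
# Endomorphisms over finite extensions are defined over the base field
-/

set_option autoImplicit false
set_option linter.unusedSectionVars false

namespace Pool.Agent.Helper49C

open NumberField IsDedekindDomain Module Polynomial Pool.Agent.Y114.RM
  Pool.Agent.Y114.TF Pool.Agent.Y114.GF Pool.Agent.Y114.MU Pool.Agent.H204R3.GP
  Pool.Agent.R931.IR Pool.Agent.W571.FM Pool.Agent.Helper49A

section blocks

variable {k : Type} [Field k] [CharZero k] {Γ : Type} [Group Γ] {ι : Type} [DecidableEq ι]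
  [Fintype ι]
  {n : ι → ℕ} (ρ : ∀ i, Representation k Γ (Fin (n i) → k))

/-- the blocks of an endomorphism -/
noncomputable def bm (Y : End k (∀ i, Fin (n i) → k)) (i i' : ι) :
    Matrix (Fin (n i)) (Fin (n i')) k :=
  LinearMap.toMatrix' (LinearMap.proj i ∘ₗ Y ∘ₗ LinearMap.single k (fun i => Fin (n i) → k) i')

theorem mem_fx_bm {Y : End k (∀ i, Fin (n i) → k)} {i i' : ι} {γ : Γ} :
    γ ∈ fx (ρ i) (ρ i') (bm Y i i') ↔
      ∀ x, ρ i γ (Y (Pi.single i' x) i) = Y (Pi.single i' (ρ i' γ x)) i := by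
  rw [mem_fx, cj_eq_iff, mx, mx, bm]
  have h1 : (LinearMap.toMatrix' (ρ i γ)) * LinearMap.toMatrix' (LinearMap.proj i ∘ₗ Y ∘ₗ
      LinearMap.single k (fun i => Fin (n i) → k) i') = LinearMap.toMatrix'
      ((ρ i γ) ∘ₗ (LinearMap.proj i ∘ₗ Y ∘ₗ LinearMap.single k (fun i => Fin (n i) → k) i')) :=
    (LinearMap.toMatrix'_comp _ _).symm
  have h2 : LinearMap.toMatrix' (LinearMap.proj i ∘ₗ Y ∘ₗ
      LinearMap.single k (fun i => Fin (n i) → k) i') * (LinearMap.toMatrix' (ρ i' γ)) =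
      LinearMap.toMatrix' ((LinearMap.proj i ∘ₗ Y ∘ₗ
      LinearMap.single k (fun i => Fin (n i) → k) i') ∘ₗ (ρ i' γ)) :=
    (LinearMap.toMatrix'_comp _ _).symm
  rw [h1, h2, LinearMap.toMatrix'.injective.eq_iff, LinearMap.ext_iff]
  rfl

theorem commutes_iff {Y : End k (∀ i, Fin (n i) → k)} {γ : Γ} :
    sumRep ρ γ * Y = Y * sumRep ρ γ ↔ ∀ i i', γ ∈ fx (ρ i) (ρ i') (bm Y i i') := by
  constructor
  · intro h i i'
    rw [mem_fx_bm]
    intro x
    have h1 := congrFun (LinearMap.congr_fun h (Pi.single i' x)) i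
    rw [End.mul_apply, End.mul_apply, Pool.Agent.Y114.MU.sumRep_single] at h1
    exact h1
  · intro h
    refine LinearMap.pi_ext fun i' x => funext fun i => ?_
    rw [End.mul_apply, End.mul_apply, Pool.Agent.Y114.MU.sumRep_single]
    exact (mem_fx_bm ρ).1 (h i i') x

end blocks

section main

variable {K : Type} [Field K] [NumberField K] {ι : Type} [Fintype ι] [DecidableEq ι] {n : ι → ℕ}
  {w : ι → ℤ} {ℓ ℓ₀ : ℕ} [hℓ : Fact ℓ.Prime] [hℓ₀ : Fact ℓ₀.Prime]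

/-- If the monodromy group at `ℓ₀` is connected, the endomorphisms at `ℓ` which commute with a subgroup
of finite index commute with the Galois group. -/
theorem endos_fixed (ρ : Reps Gal(AlgebraicClosure K/K) n ℓ) (hρ : Conts ρ)
    (ρ₀ : Reps Gal(AlgebraicClosure K/K) n ℓ₀) (hρ₀ : Conts ρ₀)
    (S : Set (HeightOneSpectrum (𝓞 K))) (hS : S.Finite) (P : HeightOneSpectrum (𝓞 K) → ι → ℚ[X])
    (hP : ∀ v ∉ S, ¬ Above v ℓ → ∀ i, GoodReduction ρ i (w i) v (P v i))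
    (hP₀ : ∀ v ∉ S, ¬ Above v ℓ₀ → ∀ i, GoodReduction ρ₀ i (w i) v (P v i))
    (hconn : ZariskiConnected ρ₀) {Y : End ℚ_[ℓ] (∀ i, Fin (n i) → ℚ_[ℓ])}
    (hY : Y ∈ tateEnd (sumRep ρ)) (γ : Gal(AlgebraicClosure K/K)) :
    sumRep ρ γ * Y = Y * sumRep ρ γ := by
  obtain ⟨Δ, hΔ, hΔY⟩ := hY
  refine (commutes_iff (k := ℚ_[ℓ]) ρ).2 fun i i' => ?_
  have h1 : Δ ≤ fx (ρ i) (ρ i') (bm Y i i') := fun δ hδ =>
    (commutes_iff (k := ℚ_[ℓ]) ρ).1 (hΔY δ hδ) i i'
  have h2 : (fx (ρ i) (ρ i') (bm Y i i')).FiniteIndex := Subgroup.finiteIndex_of_le h1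
  rw [block_commutes ρ hρ ρ₀ hρ₀ S hS P hP hP₀ hconn i i' _ h2]
  exact Subgroup.mem_top γ

end main

end Pool.Agent.Helper49C
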