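import Mathlib

/-!
# The determinant of the operator `Z ↦ ∑ G ^ k Z G' ^ (M - 1 - k)`
-/

set_option autoImplicit false
set_option linter.unusedSectionVars false

namespace Pool.Agent.Helper49C

open Matrix Kronecker Module

variable {m m' : Type} [Fintype m] [DecidableEq m] [Fintype m'] [DecidableEq m']

/-- The matrix of the operator `Z ↦ ∑ G ^ k Z G' ^ (M - 1 - k)`. -/
noncomputable def kr {R : Type} [CommRing R] (M : ℕ) (G : Matrix m m R) (G' : Matrix m' m' R) :
    Matrix (m' × m) (m' × m) R :=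
  ∑ k ∈ Finset.range M, kroneckerMap (· * ·) ((G'ᵀ) ^ (M - 1 - k)) (G ^ k)

theorem kr_vec {R : Type} [CommRing R] (M : ℕ) (G : Matrix m m R) (G' : Matrix m' m' R)
    (Z : Matrix m m' R) :
    kr M G G' *ᵥ vec Z = vec (∑ k ∈ Finset.range M, G ^ k * Z * G' ^ (M - 1 - k)) := by
  rw [kr, Matrix.sum_mulVec, vec_sum]
  refine Finset.sum_congr rfl fun k _ => ?_
  rw [kronecker_mulVec_vec, transpose_pow, transpose_transpose]

theorem kr_map {R S : Type} [CommRing R] [CommRing S] (f : R →+* S) (M : ℕ) (G : Matrix m m R)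
    (G' : Matrix m' m' R) : (kr M G G').map f = kr M (G.map f) (G'.map f) := by
  rw [kr, kr, ← RingHom.mapMatrix_apply, map_sum]
  refine Finset.sum_congr rfl fun k _ => ?_
  ext ⟨a, b⟩ ⟨c, d⟩
  rw [RingHom.mapMatrix_apply, Matrix.map_apply, kroneckerMap_apply, kroneckerMap_apply, map_mul]
  congr 1
  · have h1 : ((G'ᵀ) ^ (M - 1 - k)).map f = ((G'.map f)ᵀ) ^ (M - 1 - k) := by
      rw [← RingHom.mapMatrix_apply, map_pow]
      rfl
    rw [← h1, Matrix.map_apply]
  · have h1 : (G ^ k).map f = (G.map f) ^ k := by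
      rw [← RingHom.mapMatrix_apply, map_pow]
      rfl
    rw [← h1, Matrix.map_apply]

theorem det_kr_map {R S : Type} [CommRing R] [CommRing S] (f : R →+* S) (M : ℕ)
    (G : Matrix m m R) (G' : Matrix m' m' R) :
    f (kr M G G').det = (kr M (G.map f) (G'.map f)).det := by
  rw [RingHom.map_det, RingHom.mapMatrix_apply, kr_map]

theorem det_kr_one {F : Type} [Field F] [CharZero F] {M : ℕ} (hM : 0 < M) :
    (kr M (1 : Matrix m m F) (1 : Matrix m' m' F)).det ≠ 0 := by
  have h1 : kr M (1 : Matrix m m F) (1 : Matrix m' m' F) =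
      (M : F) • (1 : Matrix (m' × m) (m' × m) F) := by
    rw [kr]
    have h2 : ∀ k ∈ Finset.range M, kroneckerMap (· * ·) (((1 : Matrix m' m' F)ᵀ) ^ (M - 1 - k))
        ((1 : Matrix m m F) ^ k) = (1 : Matrix (m' × m) (m' × m) F) := by
      intro k _
      rw [transpose_one, one_pow, one_pow, one_kronecker_one]
    rw [Finset.sum_congr rfl h2, Finset.sum_const, Finset.card_range, ← Nat.cast_smul_eq_nsmul F]
  rw [h1, Matrix.det_smul, Matrix.det_one, mul_one]
  exact pow_ne_zero _ (Nat.cast_ne_zero.2 hM.ne')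

/-- If the operator has a kernel, there are eigenvalues with the relation. -/
theorem exists_eigen_of_ker (M : ℕ) (G : Matrix m m ℂ) (G' : Matrix m' m' ℂ) {Z : Matrix m m' ℂ}
    (hZ : Z ≠ 0) (h : ∑ k ∈ Finset.range M, G ^ k * Z * G' ^ (M - 1 - k) = 0) :
    ∃ z z' : ℂ, G.charpoly.IsRoot z ∧ G'.charpoly.IsRoot z' ∧
      ∑ k ∈ Finset.range M, z ^ k * z' ^ (M - 1 - k) = 0 := by
  let T : Matrix m m' ℂ →ₗ[ℂ] Matrix m m' ℂ :=
    { toFun := fun Z => ∑ k ∈ Finset.range M, G ^ k * Z * G' ^ (M - 1 - k)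
      map_add' := fun A B => by
        rw [← Finset.sum_add_distrib]
        exact Finset.sum_congr rfl fun k _ => by rw [Matrix.mul_add, Matrix.add_mul]
      map_smul' := fun c A => by
        rw [RingHom.id_apply, Finset.smul_sum]
        exact Finset.sum_congr rfl fun k _ => by rw [Matrix.mul_smul, Matrix.smul_mul] }
  let Lm : End ℂ (Matrix m m' ℂ) :=
    { toFun := fun Z => G * Z
      map_add' := fun A B => Matrix.mul_add _ _ _
      map_smul' := fun c A => Matrix.mul_smul _ _ _ }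
  let Rm : End ℂ (Matrix m m' ℂ) :=
    { toFun := fun Z => Z * G'
      map_add' := fun A B => Matrix.add_mul _ _ _
      map_smul' := fun c A => Matrix.smul_mul _ _ _ }
  have hTL : ∀ Z, T (Lm Z) = Lm (T Z) := by
    intro Z
    show ∑ k ∈ Finset.range M, G ^ k * (G * Z) * G' ^ (M - 1 - k) =
      G * ∑ k ∈ Finset.range M, G ^ k * Z * G' ^ (M - 1 - k)
    rw [Matrix.mul_sum]
    refine Finset.sum_congr rfl fun k _ => ?_
    rw [← Matrix.mul_assoc (G ^ k), ← pow_succ, pow_succ', Matrix.mul_assoc G, Matrix.mul_assoc G]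
  have hTR : ∀ Z, T (Rm Z) = Rm (T Z) := by
    intro Z
    show ∑ k ∈ Finset.range M, G ^ k * (Z * G') * G' ^ (M - 1 - k) =
      (∑ k ∈ Finset.range M, G ^ k * Z * G' ^ (M - 1 - k)) * G'
    rw [Matrix.sum_mul]
    refine Finset.sum_congr rfl fun k _ => ?_
    rw [← Matrix.mul_assoc (G ^ k), Matrix.mul_assoc (G ^ k * Z) G', ← pow_succ', pow_succ,
      ← Matrix.mul_assoc (G ^ k * Z)]
  -- an eigenvector of the left multiplication
  let N : Submodule ℂ (Matrix m m' ℂ) := LinearMap.ker T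
  have hN : ∀ Z ∈ N, Lm Z ∈ N := fun Z hZ => by
    show T (Lm Z) = 0
    rw [hTL, show T Z = 0 from hZ, map_zero]
  have hNn : Nontrivial N := ⟨⟨⟨Z, h⟩, 0, fun h' => hZ (congrArg Subtype.val h')⟩⟩
  obtain ⟨z, hz⟩ := Module.End.exists_eigenvalue (Lm.restrict hN)
  obtain ⟨Z₁, hZ₁⟩ := hz.exists_hasEigenvector
  have hZ₁' : Lm Z₁ = z • (Z₁ : Matrix m m' ℂ) := congrArg Subtype.val hZ₁.apply_eq_smul
  -- an eigenvector of the right multiplication
  let N₁ : Submodule ℂ (Matrix m m' ℂ) := N ⊓ End.eigenspace Lm z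
  have hN₁ : ∀ Z ∈ N₁, Rm Z ∈ N₁ := by
    rintro Z ⟨h1, h2⟩
    refine ⟨?_, ?_⟩
    · show T (Rm Z) = 0
      rw [hTR, show T Z = 0 from h1, map_zero]
    · have h3 : Lm Z = z • Z := End.mem_eigenspace_iff.1 h2
      refine End.mem_eigenspace_iff.2 ?_
      show G * (Z * G') = z • (Z * G')
      rw [← Matrix.mul_assoc, show G * Z = z • Z from h3, Matrix.smul_mul]
  have hZ₁0 : (Z₁ : Matrix m m' ℂ) ≠ 0 := fun h' => hZ₁.2 (Subtype.ext h')
  have hN₁n : Nontrivial N₁ := ⟨⟨⟨Z₁, Z₁.2, End.mem_eigenspace_iff.2 hZ₁'⟩, 0, fun h' =>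
    hZ₁0 (congrArg Subtype.val h')⟩⟩
  obtain ⟨z', hz'⟩ := Module.End.exists_eigenvalue (Rm.restrict hN₁)
  obtain ⟨Z₂, hZ₂⟩ := hz'.exists_hasEigenvector
  have hR : (Z₂ : Matrix m m' ℂ) * G' = z' • (Z₂ : Matrix m m' ℂ) :=
    congrArg Subtype.val hZ₂.apply_eq_smul
  have hL : G * (Z₂ : Matrix m m' ℂ) = z • (Z₂ : Matrix m m' ℂ) :=
    End.mem_eigenspace_iff.1 Z₂.2.2
  have hZ₂0 : (Z₂ : Matrix m m' ℂ) ≠ 0 := fun h' => hZ₂.2 (Subtype.ext h')
  have hT0 : T Z₂ = 0 := Z₂.2.1
  have hLk : ∀ k : ℕ, G ^ k * (Z₂ : Matrix m m' ℂ) = z ^ k • (Z₂ : Matrix m m' ℂ) := by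
    intro k
    induction k with
    | zero => rw [pow_zero, pow_zero, Matrix.one_mul, one_smul]
    | succ k ih => rw [pow_succ, Matrix.mul_assoc, hL, Matrix.mul_smul, ih, smul_smul, pow_succ']
  have hRk : ∀ k : ℕ, (Z₂ : Matrix m m' ℂ) * G' ^ k = z' ^ k • (Z₂ : Matrix m m' ℂ) := by
    intro k
    induction k with
    | zero => rw [pow_zero, pow_zero, Matrix.mul_one, one_smul]
    | succ k ih => rw [pow_succ, ← Matrix.mul_assoc, ih, Matrix.smul_mul, hR, smul_smul, pow_succ]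
  have hrel : (∑ k ∈ Finset.range M, z ^ k * z' ^ (M - 1 - k)) • (Z₂ : Matrix m m' ℂ) = 0 := by
    rw [← hT0]
    show _ = ∑ k ∈ Finset.range M, G ^ k * (Z₂ : Matrix m m' ℂ) * G' ^ (M - 1 - k)
    rw [Finset.sum_smul]
    refine Finset.sum_congr rfl fun k _ => ?_
    rw [hLk, Matrix.smul_mul, hRk, smul_smul]
  refine ⟨z, z', ?_, ?_, (smul_eq_zero.1 hrel).resolve_right hZ₂0⟩
  · obtain ⟨a, b, hab⟩ : ∃ a b, (Z₂ : Matrix m m' ℂ) a b ≠ 0 := by
      by_contra hcon
      push Not at hcon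
      exact hZ₂0 (Matrix.ext fun a b => hcon a b)
    have h1 : G *ᵥ (fun a => (Z₂ : Matrix m m' ℂ) a b) = z • fun a => (Z₂ : Matrix m m' ℂ) a b := by
      funext c
      exact congrFun (congrFun hL c) b
    have h2 : End.HasEigenvalue (Matrix.toLin' G) z := by
      refine End.hasEigenvalue_of_hasEigenvector (x := fun a => (Z₂ : Matrix m m' ℂ) a b) ⟨?_, ?_⟩
      · rw [End.mem_eigenspace_iff, Matrix.toLin'_apply, h1]
      · intro h3
        exact hab (congrFun h3 a)
    rw [End.hasEigenvalue_iff_isRoot_charpoly, Matrix.charpoly_toLin'] at h2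
    exact h2
  · obtain ⟨a, b, hab⟩ : ∃ a b, (Z₂ : Matrix m m' ℂ) a b ≠ 0 := by
      by_contra hcon
      push Not at hcon
      exact hZ₂0 (Matrix.ext fun a b => hcon a b)
    have h1 : (G'ᵀ) *ᵥ (fun b => (Z₂ : Matrix m m' ℂ) a b) =
        z' • fun b => (Z₂ : Matrix m m' ℂ) a b := by
      funext c
      have h2 := congrFun (congrFun hR a) c
      rw [Matrix.mul_apply] at h2
      rw [Matrix.mulVec, dotProduct]
      simp only [Matrix.transpose_apply]
      rw [Pi.smul_apply]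
      rw [Matrix.smul_apply] at h2
      rw [← h2]
      exact Finset.sum_congr rfl fun x _ => mul_comm _ _
    have h2 : End.HasEigenvalue (Matrix.toLin' G'ᵀ) z' := by
      refine End.hasEigenvalue_of_hasEigenvector (x := fun b => (Z₂ : Matrix m m' ℂ) a b) ⟨?_, ?_⟩
      · rw [End.mem_eigenspace_iff, Matrix.toLin'_apply, h1]
      · intro h3
        exact hab (congrFun h3 b)
    rw [End.hasEigenvalue_iff_isRoot_charpoly, Matrix.charpoly_toLin', Matrix.charpoly_transpose] at h2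
    exact h2

/-- If there are eigenvalues with the relation, the determinant is zero. -/
theorem det_kr_of_eigen (M : ℕ) (G : Matrix m m ℂ) (G' : Matrix m' m' ℂ) {z z' : ℂ}
    (hz : G.charpoly.IsRoot z) (hz' : G'.charpoly.IsRoot z')
    (h : ∑ k ∈ Finset.range M, z ^ k * z' ^ (M - 1 - k) = 0) : (kr M G G').det = 0 := by
  have h1 : End.HasEigenvalue (Matrix.toLin' G) z := by
    rw [End.hasEigenvalue_iff_isRoot_charpoly, Matrix.charpoly_toLin']
    exact hz
  have h2 : End.HasEigenvalue (Matrix.toLin' G'ᵀ) z' := by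
    rw [End.hasEigenvalue_iff_isRoot_charpoly, Matrix.charpoly_toLin', Matrix.charpoly_transpose]
    exact hz'
  obtain ⟨v, hv⟩ := h1.exists_hasEigenvector
  obtain ⟨u, hu⟩ := h2.exists_hasEigenvector
  have hv1 : G *ᵥ v = z • v := by
    have h3 := hv.apply_eq_smul
    rwa [Matrix.toLin'_apply] at h3
  have hu1 : u ᵥ* G' = z' • u := by
    have h3 := hu.apply_eq_smul
    rwa [Matrix.toLin'_apply, Matrix.mulVec_transpose] at h3
  have hL : G * vecMulVec v u = z • vecMulVec v u := by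
    rw [Matrix.mul_vecMulVec, hv1, Matrix.smul_vecMulVec]
  have hR : vecMulVec v u * G' = z' • vecMulVec v u := by
    rw [Matrix.vecMulVec_mul, hu1, Matrix.vecMulVec_smul]
  have hLk : ∀ k : ℕ, G ^ k * vecMulVec v u = z ^ k • vecMulVec v u := by
    intro k
    induction k with
    | zero => rw [pow_zero, pow_zero, Matrix.one_mul, one_smul]
    | succ k ih => rw [pow_succ, Matrix.mul_assoc, hL, Matrix.mul_smul, ih, smul_smul, pow_succ']
  have hRk : ∀ k : ℕ, vecMulVec v u * G' ^ k = z' ^ k • vecMulVec v u := by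
    intro k
    induction k with
    | zero => rw [pow_zero, pow_zero, Matrix.mul_one, one_smul]
    | succ k ih => rw [pow_succ, ← Matrix.mul_assoc, ih, Matrix.smul_mul, hR, smul_smul, pow_succ]
  have hne : vecMulVec v u ≠ 0 := by
    obtain ⟨a, ha⟩ : ∃ a, v a ≠ 0 := by
      by_contra hcon
      push Not at hcon
      exact hv.2 (funext hcon)
    obtain ⟨b, hb⟩ : ∃ b, u b ≠ 0 := by
      by_contra hcon
      push Not at hcon
      exact hu.2 (funext hcon)
    intro h0
    have h3 := congrFun (congrFun h0 a) b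
    rw [vecMulVec_apply] at h3
    exact mul_ne_zero ha hb h3
  apply Matrix.exists_mulVec_eq_zero_iff.1
  refine ⟨vec (vecMulVec v u), fun h0 => hne (vec_eq_zero_iff.1 h0), ?_⟩
  rw [kr_vec, vec_eq_zero_iff, ← zero_smul ℂ (vecMulVec v u), ← h, Finset.sum_smul]
  refine Finset.sum_congr rfl fun k _ => ?_
  rw [hLk, Matrix.smul_mul, hRk, smul_smul]

end Pool.Agent.Helper49C
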