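import Pool.Agent.Helper49B.Eig2
import Pool.Agent.N203.RE.Defs

/-!
# The determinant characters of the eigenspaces of an operator, over number fields
-/

set_option autoImplicit false
set_option linter.unusedSectionVars false

namespace Pool.Agent.Helper49C

open NumberField IsDedekindDomain Module Polynomial Pool.Agent.Y114.RM Pool.Agent.Y114.GF
  Pool.Agent.W569.FM Pool.Agent.W571.FM Pool.Agent.Y115.Chi Pool.Agent.Y115.CQ Pool.Agent.Y115.T
  Pool.Agent.TH118.SG Pool.Agent.Y115 Pool.Agent.Helper49B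

section place

variable {F : Type} [Field F] [NumberField F] {ℓ : ℕ} [hℓ : Fact ℓ.Prime]

/-- Relations between the Frobenius values of a character with values in the algebraic closure of
`ℚ_ℓ`. -/
theorem place_bar (ψ : GF F →* (PadicAlgCl ℓ)ˣ) (hψ : Continuous ψ) (T : Set ℕ)
    (hT3 : 3 ≤ T.encard) (hT : ∀ p ∈ T, p.Prime ∧ p ≠ ℓ ∧ Unram F p)
    (σ₀ : HeightOneSpectrum (𝓞 F) → GF F)
    (hd : ∀ p ∈ T, ∀ v : HeightOneSpectrum (𝓞 F), (p : 𝓞 F) ∈ v.asIdeal → ∀ Q : Ideal (OO F),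
      Q.IsPrime → cm Q = v.asIdeal → (∀ τ, InInertia Q τ → ψ τ = 1) ∧
        ∀ φ, FrobAt (Ideal.absNorm v.asIdeal) Q φ → ψ φ = ψ (σ₀ v))
    (halg : ∀ p ∈ T, ∀ v : HeightOneSpectrum (𝓞 F), (p : 𝓞 F) ∈ v.asIdeal →
      IsAlgebraic ℚ (ψ (σ₀ v) : PadicAlgCl ℓ)) :
    ∀ p ∈ T, ∃ (S : Finset (HeightOneSpectrum (𝓞 F))) (N : ℕ) (a : ℤ), 0 < N ∧
      (∀ v, v ∈ S ↔ (p : 𝓞 F) ∈ v.asIdeal) ∧
      (∏ v ∈ S, (ψ (σ₀ v) : PadicAlgCl ℓ)) ^ N = (p : PadicAlgCl ℓ) ^ a ∧
      ∃ f : HeightOneSpectrum (𝓞 F) → ℕ, (∀ v ∈ S, Ideal.absNorm v.asIdeal = p ^ f v) ∧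
        ∑ v ∈ S, f v = Module.finrank ℚ F := by
  classical
  obtain ⟨K, hK, hψK⟩ := FI.exists_field ℓ ψ hψ
  let f : GF F →* K :=
    { toFun := fun g => ⟨(ψ g : PadicAlgCl ℓ), hψK g⟩
      map_one' := by
        apply Subtype.ext
        show ((ψ 1 : (PadicAlgCl ℓ)ˣ) : PadicAlgCl ℓ) = 1
        rw [map_one, Units.val_one]
      map_mul' := by
        intro a b
        apply Subtype.ext
        show ((ψ (a * b) : (PadicAlgCl ℓ)ˣ) : PadicAlgCl ℓ) = ψ a * ψ b
        rw [map_mul, Units.val_mul] }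
  set φ : GF F →* Kˣ := f.toHomUnits with hφ
  have hφv : ∀ g, ((φ g : K) : PadicAlgCl ℓ) = ψ g := fun g => rfl
  have hinj : ∀ g g', ψ g = ψ g' → φ g = φ g' := by
    intro g g' h
    apply Units.ext
    apply Subtype.ext
    rw [hφv, hφv, h]
  have hfc : Continuous f := Continuous.subtype_mk (Units.continuous_val.comp hψ) _
  have hφc : Continuous φ := by
    rw [Units.continuous_iff]
    refine ⟨hfc, ?_⟩
    have h2 : (fun g => (((φ g)⁻¹ : Kˣ) : K)) = fun g => f g⁻¹ := by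
      funext g
      rw [← map_inv]
      rfl
    rw [h2]
    exact hfc.comp continuous_inv
  have hcompl : CompleteSpace K := FiniteDimensional.complete ℚ_[ℓ] K
  have hultra : IsUltrametricDist K := IsUltrametricDist.of_normedAlgebra ℚ_[ℓ]
  have hchar : CharZero K := charZero_of_injective_algebraMap (algebraMap ℚ_[ℓ] K).injective
  intro p hp
  obtain ⟨S, N, a, hN, hS, heq, hf⟩ := place_relation φ hφc T hT3 hT (fun v => φ (σ₀ v))
    (fun p hp v hv Q hQ hQv => ⟨fun τ hτ => by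
      have h1 := hinj τ 1 (by rw [(hd p hp v hv Q hQ hQv).1 τ hτ, map_one])
      rw [h1, map_one], fun g hg => hinj _ _ ((hd p hp v hv Q hQ hQv).2 g hg)⟩)
    (fun p hp v hv =>
      (isAlgebraic_algHom_iff (RingHom.toRatAlgHom (algebraMap K (PadicAlgCl ℓ)))
        (algebraMap K (PadicAlgCl ℓ)).injective).1 (halg p hp v hv)) p hp
  refine ⟨S, N, a, hN, hS, ?_, hf⟩
  have h1 := congrArg (fun u : K => algebraMap K (PadicAlgCl ℓ) u) heq
  simp only [map_pow, map_zpow₀, map_prod, map_natCast] at h1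
  exact h1

/-- The value at Frobenius elements. -/
theorem frob_value {A : Type} [CommGroup A] (ψ : GF F →* A) (v : HeightOneSpectrum (𝓞 F))
    (Q₀ Q : Ideal (OO F)) (hQ₀ : Q₀.IsPrime) (hQ : Q.IsPrime) (hQ₀v : cm Q₀ = v.asIdeal)
    (hQv : cm Q = v.asIdeal) (hin : ∀ g, InInertia Q₀ g → ψ g = 1) (σ₀ : GF F)
    (hσ₀ : FrobAt (Ideal.absNorm v.asIdeal) Q₀ σ₀) (g : GF F)
    (hg : FrobAt (Ideal.absNorm v.asIdeal) Q g) : ψ g = ψ σ₀ := by
  obtain ⟨h, hh⟩ := exists_smul Q₀ Q hQ₀ hQ (hQ₀v.trans hQv.symm)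
  have hq0 : Ideal.absNorm v.asIdeal ≠ 0 := by
    rw [Ne, Ideal.absNorm_eq_zero_iff]
    exact v.ne_bot
  have h1 : FrobAt (Ideal.absNorm v.asIdeal) Q₀ (h⁻¹ * g * h) := by
    intro x
    have h2 := (hh _).1 (hg (h • x))
    rw [smul_sub, smul_pow', inv_smul_smul, smul_smul, smul_smul] at h2
    exact h2
  have h2 := hin _ (frob_inertia hq0 hQ₀ hσ₀ h1)
  rw [map_mul, map_mul, map_mul, map_inv, map_inv, mul_comm (ψ h)⁻¹, mul_assoc (ψ g),
    inv_mul_cancel, mul_one, inv_mul_eq_one] at h2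
  exact h2.symm

end place

section ratio

/-- The square of a product of pure roots, divided by its absolute value, is in the group generated
by the quotients of the roots. -/
theorem ratio_prod {ι : Type} (P : ι → ℚ[X]) (i : ι) {c : ℝ} (hc : 0 < c)
    (hw : ∀ a ∈ (P i).aroots ℂ, ‖a‖ ^ 2 = c) (A : Multiset ℂ)
    (hA : ∀ a ∈ A, a ∈ (P i).aroots ℂ) :
    ∃ u ∈ ratioGroup P, (u : ℂ) * (c : ℂ) ^ (Multiset.card A) = A.prod ^ 2 := by
  induction A using Multiset.induction_on with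
  | empty => exact ⟨1, one_mem _, by simp⟩
  | cons a A ih =>
    obtain ⟨u, hu, hu2⟩ := ih fun b hb => hA b (Multiset.mem_cons_of_mem hb)
    have ha := hA a (Multiset.mem_cons_self a A)
    have hn := hw a ha
    have ha0 : a ≠ 0 := by
      rintro rfl
      rw [norm_zero, zero_pow two_ne_zero] at hn
      exact hc.ne hn
    have hconj : (starRingEnd ℂ) a ∈ (P i).aroots ℂ := by
      rw [mem_aroots] at ha ⊢
      refine ⟨ha.1, ?_⟩
      have h1 : aeval ((starRingEnd ℂ) a) (P i) = (starRingEnd ℂ) (aeval a (P i)) := by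
        have h2 := Polynomial.aeval_algHom_apply (RingHom.toRatAlgHom (starRingEnd ℂ)) a (P i)
        exact h2
      rw [h1, ha.2, map_zero]
    have hcn : a * (starRingEnd ℂ) a = (c : ℂ) := by
      rw [Complex.mul_conj, Complex.normSq_eq_norm_sq, hn]
    have hconj0 : (starRingEnd ℂ) a ≠ 0 := by
      intro h0
      rw [h0, mul_zero] at hcn
      exact hc.ne (by exact_mod_cast hcn)
    let x : ℂˣ := Units.mk0 (a / (starRingEnd ℂ) a) (div_ne_zero ha0 hconj0)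
    have hx : x ∈ ratioGroup P := by
      refine Subgroup.subset_closure ⟨i, a, ha, (starRingEnd ℂ) a, hconj, ?_⟩
      show a / (starRingEnd ℂ) a * (starRingEnd ℂ) a = a
      exact div_mul_cancel₀ a hconj0
    refine ⟨x * u, (ratioGroup P).mul_mem hx hu, ?_⟩
    rw [Units.val_mul, Multiset.card_cons, Multiset.prod_cons, pow_succ, mul_pow, ← hu2]
    have h1 : (x : ℂ) * (c : ℂ) = a ^ 2 := by
      show a / (starRingEnd ℂ) a * (c : ℂ) = a ^ 2
      rw [← hcn]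
      field_simp
    rw [← h1]
    ring

end ratio

section mat

variable {ℓ : ℕ} [hℓ : Fact ℓ.Prime] {n : ℕ} {Γ : Type} [Group Γ]

/-- The matrix of a group element over the algebraic closure of `ℚ_ℓ`. -/
noncomputable def mt (r : Representation ℚ_[ℓ] Γ (Fin n → ℚ_[ℓ])) (g : Γ) :
    Matrix (Fin n) (Fin n) (PadicAlgCl ℓ) :=
  (LinearMap.toMatrix' (r g)).map (algebraMap ℚ_[ℓ] (PadicAlgCl ℓ))

theorem mt_one (r : Representation ℚ_[ℓ] Γ (Fin n → ℚ_[ℓ])) : mt r 1 = 1 := by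
  rw [mt, map_one, LinearMap.toMatrix'_one, ← RingHom.mapMatrix_apply, map_one]

theorem mt_mul (r : Representation ℚ_[ℓ] Γ (Fin n → ℚ_[ℓ])) (g h : Γ) :
    mt r (g * h) = mt r g * mt r h := by
  rw [mt, map_mul, LinearMap.toMatrix'_mul, ← RingHom.mapMatrix_apply, map_mul]
  rfl

/-- The determinant on the image of the projector `B`. -/
noncomputable def psi0 (r : Representation ℚ_[ℓ] Γ (Fin n → ℚ_[ℓ]))
    {B : Matrix (Fin n) (Fin n) (PadicAlgCl ℓ)} (hB : B * B = B)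
    (hc : ∀ g, B * mt r g = mt r g * B) : Γ →* PadicAlgCl ℓ where
  toFun g := (mt r g * B + (1 - B)).det
  map_one' := by
    rw [mt_one, one_mul, add_sub_cancel, Matrix.det_one]
  map_mul' g h := by
    rw [← Matrix.det_mul, mat_mul hB (hc h), mt_mul]

theorem psi0_apply (r : Representation ℚ_[ℓ] Γ (Fin n → ℚ_[ℓ]))
    {B : Matrix (Fin n) (Fin n) (PadicAlgCl ℓ)} (hB : B * B = B)
    (hc : ∀ g, B * mt r g = mt r g * B) (g : Γ) :
    psi0 r hB hc g = (mt r g * B + (1 - B)).det := rfl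

variable [TopologicalSpace Γ]

theorem continuous_psi0 (r : Representation ℚ_[ℓ] Γ (Fin n → ℚ_[ℓ]))
    (hr : Continuous fun g => LinearMap.toMatrix' (r g))
    {B : Matrix (Fin n) (Fin n) (PadicAlgCl ℓ)} (hB : B * B = B)
    (hc : ∀ g, B * mt r g = mt r g * B) : Continuous (psi0 r hB hc) := by
  have h1 : Continuous fun g => mt r g :=
    hr.matrix_map (algebraMapCLM ℚ_[ℓ] (PadicAlgCl ℓ)).continuous
  have h2 : Continuous fun g => (mt r g * B + (1 - B)).det :=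
    ((h1.matrix_mul continuous_const).add continuous_const).matrix_det
  exact h2

theorem continuous_units [IsTopologicalGroup Γ] (ψ : Γ →* PadicAlgCl ℓ) (h : Continuous ψ) :
    Continuous ψ.toHomUnits := by
  rw [Units.continuous_iff]
  refine ⟨h, ?_⟩
  have h2 : (fun g => (((ψ.toHomUnits g)⁻¹ : (PadicAlgCl ℓ)ˣ) : PadicAlgCl ℓ)) =
      fun g => ψ g⁻¹ := by
    funext g
    rw [← map_inv]
    rfl
  rw [h2]
  exact h.comp continuous_inv

end mat

section roots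

variable {ℓ : ℕ} [hℓ : Fact ℓ.Prime] {n : ℕ} {Γ : Type} [Group Γ]

theorem charpoly_mt (r : Representation ℚ_[ℓ] Γ (Fin n → ℚ_[ℓ])) (j : PadicAlgCl ℓ →+* ℂ)
    (g : Γ) : (Matrix.toLin' ((mt r g).map j)).charpoly =
      (r g).charpoly.map (j.comp (algebraMap ℚ_[ℓ] (PadicAlgCl ℓ))) := by
  rw [mt, Matrix.map_map, Matrix.charpoly_toLin', ← RingHom.coe_comp, Matrix.charpoly_map,
    ← LinearMap.toMatrix_eq_toMatrix', LinearMap.charpoly_toMatrix]

theorem charpoly_frob (r : Representation ℚ_[ℓ] Γ (Fin n → ℚ_[ℓ])) (j : PadicAlgCl ℓ →+* ℂ)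
    (g : Γ) {f : ℚ[X]} (hf : (r g).charpoly = f.map (algebraMap ℚ ℚ_[ℓ])) :
    (Matrix.toLin' ((mt r g).map j)).charpoly = f.map (algebraMap ℚ ℂ) := by
  rw [charpoly_mt, hf, Polynomial.map_map]
  congr 1
  exact Subsingleton.elim _ _

variable (r : Representation ℚ_[ℓ] Γ (Fin n → ℚ_[ℓ]))
  {B : Matrix (Fin n) (Fin n) (PadicAlgCl ℓ)} (hB : B * B = B)
  (hc : ∀ g, B * mt r g = mt r g * B) (j : PadicAlgCl ℓ →+* ℂ) {U : Submodule ℂ (Fin n → ℂ)}

/-- The value of the determinant character is a product of eigenvalues. -/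
theorem psi_roots (hBU : ∀ x, Matrix.toLin' (B.map j) x ∈ U)
    (hUB : ∀ x ∈ U, Matrix.toLin' (B.map j) x = x)
    (g : Γ) (hU : ∀ x ∈ U, Matrix.toLin' ((mt r g).map j) x ∈ U)
    {f : ℚ[X]} (hf : (r g).charpoly = f.map (algebraMap ℚ ℚ_[ℓ])) :
    ∃ A : Multiset ℂ, Multiset.card A = finrank ℂ U ∧ A ≤ (f.map (algebraMap ℚ ℂ)).roots ∧
      j (psi0 r hB hc g) = A.prod := by
  obtain ⟨A, hA, hle, hdet⟩ := det_restrict_roots (Matrix.toLin' ((mt r g).map j)) U hU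
  refine ⟨A, hA, ?_, ?_⟩
  · rwa [charpoly_frob r j g hf] at hle
  · rw [psi0_apply, det_map j _ _ U hU hBU hUB, hdet]

end roots

end Pool.Agent.Helper49C
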