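import Pool.Agent.Helper49C.Psi
import Pool.Agent.R931.GD.Ram

/-!
# The determinant characters at a place of maximal rank, over number fields
-/

set_option autoImplicit false
set_option linter.unusedSectionVars false

namespace Pool.Agent.Helper49C

open NumberField IsDedekindDomain Module Polynomial Pool.Agent.Y114.RM Pool.Agent.Y114.GF
  Pool.Agent.W569.FM Pool.Agent.W571.FM Pool.Agent.Y115.Chi Pool.Agent.Y115.CQ Pool.Agent.Y115.T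
  Pool.Agent.TH118.SG Pool.Agent.Y115 Pool.Agent.N203.RE
open Pool.Agent.Helper49B (ext0_zpow algebraic_root exists_projector det_map)

variable {F : Type} [Field F] [NumberField F] {ℓ : ℕ} [hℓ : Fact ℓ.Prime] {n : ℕ}

/-- The set of the good prime numbers. -/
def goodPrimes (S : Set (HeightOneSpectrum (𝓞 F))) (ℓ : ℕ) : Set ℕ :=
  {p : ℕ | p.Prime ∧ p ≠ ℓ ∧ UnramifiedIn F p ∧ ∀ v, Above v p → v ∉ S}

/-- At a good prime number with independent places the square of the determinant is, up to a root of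
unity, a power of the norm. -/
theorem place_torsion (r : Representation ℚ_[ℓ] (GF F) (Fin n → ℚ_[ℓ]))
    (hr : Continuous fun g => LinearMap.toMatrix' (r g))
    {B : Matrix (Fin n) (Fin n) (PadicAlgCl ℓ)} (hB : B * B = B)
    (hc : ∀ g, B * mt r g = mt r g * B) (j : PadicAlgCl ℓ →+* ℂ) {U : Submodule ℂ (Fin n → ℂ)}
    (hBU : ∀ x, Matrix.toLin' (B.map j) x ∈ U)
    (hUB : ∀ x ∈ U, Matrix.toLin' (B.map j) x = x)
    (hU : ∀ g, ∀ x ∈ U, Matrix.toLin' ((mt r g).map j) x ∈ U)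
    (S : Set (HeightOneSpectrum (𝓞 F))) (hS : S.Finite) {ι : Type}
    (P : HeightOneSpectrum (𝓞 F) → ι → ℚ[X]) (i : ι) {w : ℤ}
    (hw : ∀ v ∉ S, ∀ a ∈ (P v i).aroots ℂ, ¬ Above v ℓ → ‖a‖ ^ 2 = (q v : ℝ) ^ w)
    (hin : ∀ v ∉ S, ¬ Above v ℓ → ∀ Q : Ideal (OO F), Q.IsPrime → cm Q = v.asIdeal → ∀ g,
      InInertia Q g → r g = 1)
    (hP : ∀ v ∉ S, ¬ Above v ℓ → ∀ Q : Ideal (OO F), Q.IsPrime → cm Q = v.asIdeal → ∀ g,
      FrobAt (Ideal.absNorm v.asIdeal) Q g →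
        (r g⁻¹).charpoly = (P v i).map (algebraMap ℚ ℚ_[ℓ]))
    {p : ℕ} (hp : p ∈ goodPrimes S ℓ) (hind : PlacesIndependent P p)
    (v₀ : HeightOneSpectrum (𝓞 F)) (hv₀ : Above v₀ p)
    (Q : Ideal (OO F)) (hQ : Q.IsPrime) (hQv : cm Q = v₀.asIdeal) (g : GF F)
    (hg : FrobAt (Ideal.absNorm v₀.asIdeal) Q g) :
    ∃ m : ℕ, 0 < m ∧ (j (psi0 r hB hc g⁻¹)) ^ (2 * m) = (q v₀ : ℂ) ^ (w * finrank ℂ U * m) := by
  classical
  have hfr : ∀ v : HeightOneSpectrum (𝓞 F), ∃ (Q : Ideal (OO F)) (σ : GF F), Q.IsMaximal ∧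
      cm Q = v.asIdeal ∧ FrobAt (Ideal.absNorm v.asIdeal) Q σ := fun v => frob_cm v
  choose Q₀ σ₀ hQ₀ hQ₀v hσ₀ using hfr
  set ψ : GF F →* (PadicAlgCl ℓ)ˣ := (psi0 r hB hc).toHomUnits with hψ
  have hψv : ∀ g, (ψ g : PadicAlgCl ℓ) = psi0 r hB hc g := fun g => rfl
  have hψc : Continuous ψ := continuous_units _ (continuous_psi0 r hr hB hc)
  have hgoodv : ∀ p ∈ goodPrimes S ℓ, ∀ v : HeightOneSpectrum (𝓞 F), (p : 𝓞 F) ∈ v.asIdeal →
      v ∉ S ∧ ¬ Above v ℓ := by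
    rintro p ⟨hp, hpℓ, -, hpS⟩ v hv
    exact ⟨hpS v hv, fun h => hpℓ (Pool.Agent.R931.GD.above_inj hp hℓ.out hv h)⟩
  have hinψ : ∀ p ∈ goodPrimes S ℓ, ∀ v : HeightOneSpectrum (𝓞 F), (p : 𝓞 F) ∈ v.asIdeal →
      ∀ Q : Ideal (OO F), Q.IsPrime → cm Q = v.asIdeal → ∀ g, InInertia Q g → ψ g = 1 := by
    intro p hp v hv Q hQ hQv g hg
    obtain ⟨h1, h2⟩ := hgoodv p hp v hv
    apply Units.ext
    rw [hψv, Units.val_one, psi0_apply]
    have h3 : mt r g = 1 := by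
      rw [mt, hin v h1 h2 Q hQ hQv g hg, LinearMap.toMatrix'_one, ← RingHom.mapMatrix_apply,
        map_one]
    rw [h3, one_mul, add_sub_cancel, Matrix.det_one]
  -- the values
  have hval : ∀ p ∈ goodPrimes S ℓ, ∀ v : HeightOneSpectrum (𝓞 F), (p : 𝓞 F) ∈ v.asIdeal →
      ∃ A : Multiset ℂ, Multiset.card A = finrank ℂ U ∧ (∀ a ∈ A, a ∈ (P v i).aroots ℂ) ∧
        j (psi0 r hB hc (σ₀ v)⁻¹) = A.prod := by
    intro p hp v hv
    obtain ⟨h1, h2⟩ := hgoodv p hp v hv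
    obtain ⟨A, hA, hle, hA2⟩ := psi_roots r hB hc j hBU hUB (σ₀ v)⁻¹ (hU _)
      (hP v h1 h2 (Q₀ v) (hQ₀ v).isPrime (hQ₀v v) (σ₀ v) (hσ₀ v))
    refine ⟨A, hA, fun a ha => ?_, hA2⟩
    exact Multiset.mem_of_le hle ha
  have hinv : ∀ g, psi0 r hB hc g⁻¹ = (psi0 r hB hc g)⁻¹ := by
    intro g
    apply eq_inv_of_mul_eq_one_left
    rw [← map_mul, inv_mul_cancel, map_one]
  have halg : ∀ p ∈ goodPrimes S ℓ, ∀ v : HeightOneSpectrum (𝓞 F), (p : 𝓞 F) ∈ v.asIdeal →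
      IsAlgebraic ℚ (ψ (σ₀ v) : PadicAlgCl ℓ) := by
    intro p hp v hv
    obtain ⟨A, -, hA, hA2⟩ := hval p hp v hv
    have h1 : IsAlgebraic ℚ A.prod := Pool.Agent.Y115.M.isAlgebraic_multiset_prod
      fun a ha => algebraic_root (hA a ha)
    rw [← hA2] at h1
    have h2 := (isAlgebraic_algHom_iff (RingHom.toRatAlgHom j) j.injective).1 h1
    rw [hinv] at h2
    exact IsAlgebraic.inv_iff.1 h2
  obtain ⟨s, N, a, hN, hs, heq, f, hf, hsum⟩ := place_bar ψ hψc (goodPrimes S ℓ)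
    (by
      rw [show (goodPrimes S ℓ).encard = ⊤ from
        (Pool.Agent.R931.GD.infinite_good S hS ℓ).encard_eq]
      exact le_top)
    (fun p hp => ⟨hp.1, hp.2.1, hp.2.2.1⟩) σ₀
    (fun p hp v hv Q hQ hQv => ⟨hinψ p hp v hv Q hQ hQv, fun g hg =>
      frob_value ψ v (Q₀ v) Q (hQ₀ v).isPrime hQ (hQ₀v v) hQv
        (hinψ p hp v hv (Q₀ v) (hQ₀ v).isPrime (hQ₀v v)) (σ₀ v) (hσ₀ v) g hg⟩) halg p hp
  -- the quotients
  have hx : ∀ v : HeightOneSpectrum (𝓞 F), Above v p → ∃ u ∈ ratioGroup (P v),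
      (u : ℂ) * ((q v : ℂ) ^ w) ^ (finrank ℂ U) = (j (psi0 r hB hc (σ₀ v)⁻¹)) ^ 2 := by
    intro v hv
    obtain ⟨h1, h2⟩ := hgoodv p hp v hv
    obtain ⟨A, hA, hA1, hA2⟩ := hval p hp v hv
    have hq : 0 < q v := Nat.pos_of_ne_zero (by
      rw [q, Ne, Ideal.absNorm_eq_zero_iff]
      exact v.ne_bot)
    have hc0 : (0 : ℝ) < (q v : ℝ) ^ w := zpow_pos (by exact_mod_cast hq) w
    obtain ⟨u, hu, hu2⟩ := ratio_prod (P v) i hc0 (fun a ha => hw v h1 a ha h2) A hA1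
    refine ⟨u, hu, ?_⟩
    rw [hA2, ← hu2, hA]
    push_cast
    rfl
  choose! x hxr hxv using hx
  have hjψ : ∀ v, j (psi0 r hB hc (σ₀ v)⁻¹) = (j (ψ (σ₀ v) : PadicAlgCl ℓ))⁻¹ := by
    intro v
    rw [hinv, map_inv₀, hψv]
  have hp0 : (p : ℂ) ≠ 0 := Nat.cast_ne_zero.2 hp.1.ne_zero
  have hprod : (∏ v ∈ s, (x v : ℂ)) ^ N * ((p : ℂ) ^ (w * finrank ℂ U * finrank ℚ F)) ^ N =
      (p : ℂ) ^ (-a * 2) := by
    have h1 : ∏ v ∈ s, ((x v : ℂ) * ((q v : ℂ) ^ w) ^ (finrank ℂ U)) =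
        ∏ v ∈ s, (j (psi0 r hB hc (σ₀ v)⁻¹)) ^ 2 :=
      Finset.prod_congr rfl fun v hv => hxv v ((hs v).1 hv)
    have h2 : ∏ v ∈ s, ((q v : ℂ) ^ w) ^ (finrank ℂ U) =
        (p : ℂ) ^ (w * finrank ℂ U * finrank ℚ F) := by
      have h3 : ∀ v ∈ s, ((q v : ℂ) ^ w) ^ (finrank ℂ U) = ((p : ℂ) ^ (w * finrank ℂ U)) ^ f v := by
        intro v hv
        rw [q, hf v hv]
        push_cast
        rw [← zpow_natCast, ← zpow_natCast, ← zpow_natCast, ← zpow_mul, ← zpow_mul, ← zpow_mul]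
        congr 1
        ring
      rw [Finset.prod_congr rfl h3, Finset.prod_pow_eq_pow_sum, hsum, ← zpow_natCast, ← zpow_mul]
    rw [Finset.prod_mul_distrib, h2] at h1
    rw [← mul_pow, h1]
    have h4 : ∏ v ∈ s, (j (psi0 r hB hc (σ₀ v)⁻¹)) ^ 2 =
        ((∏ v ∈ s, j (ψ (σ₀ v) : PadicAlgCl ℓ))⁻¹) ^ 2 := by
      rw [Finset.prod_pow, ← Finset.prod_inv_distrib]
      congr 1
      exact Finset.prod_congr rfl fun v _ => hjψ v
    have h5 := congrArg j heq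
    rw [map_pow, map_prod, map_zpow₀, map_natCast] at h5
    rw [h4, ← pow_mul, mul_comm 2 N, pow_mul, inv_pow, h5, ← zpow_neg, zpow_mul]
    rfl
  have hnx : ‖∏ v ∈ s, (x v : ℂ)‖ = 1 := by
    rw [norm_prod]
    refine Finset.prod_eq_one fun v hv => ?_
    obtain ⟨h1, h2⟩ := hgoodv p hp v ((hs v).1 hv)
    obtain ⟨A, hA, hA1, hA2⟩ := hval p hp v ((hs v).1 hv)
    have h3 := congrArg norm (hxv v ((hs v).1 hv))
    have hq : 0 < q v := Nat.pos_of_ne_zero (by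
      rw [q, Ne, Ideal.absNorm_eq_zero_iff]
      exact v.ne_bot)
    have hc0 : (0 : ℝ) < (q v : ℝ) ^ w := zpow_pos (by exact_mod_cast hq) w
    rw [norm_mul, norm_pow (j _), hA2, Pool.Agent.Y115.M.norm_multiset_prod A ((q v : ℝ) ^ w)
      (fun b hb => hw v h1 b (hA1 b hb) h2), hA, norm_pow, norm_zpow, Complex.norm_natCast] at h3
    exact mul_right_cancel₀ (pow_pos hc0 _).ne' (h3.trans (one_mul _).symm)
  have hroot : (∏ v ∈ s, (x v : ℂ)) ^ N = 1 := by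
    have hp1 : (1 : ℝ) < (p : ℝ) := by exact_mod_cast hp.1.one_lt
    have h1 := congrArg norm hprod
    rw [norm_mul, norm_pow, hnx, one_pow, one_mul, norm_pow, norm_zpow, norm_zpow,
      Complex.norm_natCast, ← zpow_natCast, ← zpow_mul] at h1
    have h2 := zpow_right_injective₀ (by linarith) hp1.ne' h1
    have h3 : ((p : ℂ) ^ (w * finrank ℂ U * finrank ℚ F)) ^ N = (p : ℂ) ^ (-a * 2) := by
      rw [← zpow_natCast, ← zpow_mul]
      exact congrArg _ h2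
    rw [h3] at hprod
    exact mul_right_cancel₀ (zpow_ne_zero _ hp0) (hprod.trans (one_mul _).symm)
  obtain ⟨m, hm, hxm⟩ := hind x (fun v hv => hxr v hv) ⟨N, hN, by
    have h1 : (∏ᶠ (v : HeightOneSpectrum (𝓞 F)) (_ : Above v p), x v) = ∏ v ∈ s, x v :=
      finprod_cond_eq_prod_of_cond_iff _ fun {v} _ => (hs v).symm
    rw [h1]
    apply Units.ext
    rw [Units.val_pow_eq_pow_val, Units.coe_prod, hroot, Units.val_one]⟩ v₀ hv₀
  refine ⟨m, hm, ?_⟩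
  have h1 : psi0 r hB hc g⁻¹ = psi0 r hB hc (σ₀ v₀)⁻¹ := by
    have h2 := frob_value ψ v₀ (Q₀ v₀) Q (hQ₀ v₀).isPrime hQ (hQ₀v v₀) hQv
      (hinψ p hp v₀ hv₀ (Q₀ v₀) (hQ₀ v₀).isPrime (hQ₀v v₀)) (σ₀ v₀) (hσ₀ v₀) g hg
    rw [hinv, hinv, ← hψv, ← hψv, h2]
  have h2 : (x v₀ : ℂ) ^ m = 1 := by
    rw [← Units.val_pow_eq_pow_val, hxm, Units.val_one]
  rw [h1, pow_mul, ← hxv v₀ hv₀, mul_pow, h2, one_mul, ← pow_mul, ← zpow_natCast, ← zpow_mul]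
  congr 1
  push_cast
  ring

end Pool.Agent.Helper49C
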